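import Pool.Agent.H82.GH.Defs

/-!
# GH-RHO: the distance `rho`
-/

namespace Pool.Agent.H82.GH

theorem Corr.mono {f g : ℕ → ℕ → ℝ} {ε ε' : ℝ} {L L' : List (ℕ × ℕ)} (h : Corr f g ε L)
    (hε : ε ≤ ε') (hL : ∀ p ∈ L', p ∈ L) : Corr f g ε' L' := by
  obtain ⟨R, h1, h2, h3, h4⟩ := h
  exact ⟨R, h1, h2, fun x y x' y' h h' => (h3 x y x' y' h h').trans hε, fun p hp => h4 p (hL p hp)⟩

theorem corr_self (f : ℕ → ℕ → ℝ) {L : List (ℕ × ℕ)} (h : ∀ p ∈ L, p.1 = p.2) :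
    Corr f f 0 L := by
  refine ⟨fun x y => x = y, fun x => ⟨x, rfl⟩, fun y => ⟨y, rfl⟩, ?_, h⟩
  rintro x _ x' _ rfl rfl
  simp

theorem Corr.swap {f g : ℕ → ℕ → ℝ} {ε : ℝ} {L : List (ℕ × ℕ)} (h : Corr f g ε L) :
    Corr g f ε (L.map Prod.swap) := by
  obtain ⟨R, h1, h2, h3, h4⟩ := h
  refine ⟨fun x y => R y x, h2, h1, fun x y x' y' h h' => ?_, fun p hp => ?_⟩
  · rw [abs_sub_comm]
    exact h3 y x y' x' h h'
  · obtain ⟨q, hq, rfl⟩ := List.mem_map.1 hp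
    exact h4 q hq

/-- composition of correspondences -/
theorem Corr.comp {f g k : ℕ → ℕ → ℝ} {ε δ : ℝ} {L1 L2 L3 : List (ℕ × ℕ)} (h1 : Corr f g ε L1)
    (h2 : Corr g k δ L2) (h : ∀ p ∈ L3, ∃ y, (p.1, y) ∈ L1 ∧ (y, p.2) ∈ L2) :
    Corr f k (ε + δ) L3 := by
  obtain ⟨R, a1, a2, a3, a4⟩ := h1
  obtain ⟨R', b1, b2, b3, b4⟩ := h2
  refine ⟨fun x z => ∃ y, R x y ∧ R' y z, fun x => ?_, fun z => ?_, ?_, fun p hp => ?_⟩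
  · obtain ⟨y, hy⟩ := a1 x
    obtain ⟨z, hz⟩ := b1 y
    exact ⟨z, y, hy, hz⟩
  · obtain ⟨y, hy⟩ := b2 z
    obtain ⟨x, hx⟩ := a2 y
    exact ⟨x, y, hx, hy⟩
  · rintro x z x' z' ⟨y, c1, c2⟩ ⟨y', d1, d2⟩
    have e1 := a3 x y x' y' c1 d1
    have e2 := b3 y z y' z' c2 d2
    exact (abs_sub_le _ (g y y') _).trans (add_le_add e1 e2)
  · obtain ⟨y, c1, c2⟩ := h p hp
    exact ⟨y, a4 _ c1, b4 _ c2⟩

theorem rho_bdd (f g : ℕ → ℕ → ℝ) (L : List (ℕ × ℕ)) :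
    BddBelow {ε | 0 ≤ ε ∧ (1 ≤ ε ∨ Corr f g ε L)} := ⟨0, fun _ h => h.1⟩

theorem rho_mem_one (f g : ℕ → ℕ → ℝ) (L : List (ℕ × ℕ)) :
    (1 : ℝ) ∈ {ε | 0 ≤ ε ∧ (1 ≤ ε ∨ Corr f g ε L)} := ⟨zero_le_one, Or.inl le_rfl⟩

theorem rho_nonneg (f g : ℕ → ℕ → ℝ) (L : List (ℕ × ℕ)) : 0 ≤ rho f g L :=
  le_csInf ⟨1, rho_mem_one f g L⟩ fun _ h => h.1

theorem rho_le_one (f g : ℕ → ℕ → ℝ) (L : List (ℕ × ℕ)) : rho f g L ≤ 1 :=
  csInf_le (rho_bdd f g L) (rho_mem_one f g L)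

theorem rho_le {f g : ℕ → ℕ → ℝ} {L : List (ℕ × ℕ)} {ε : ℝ} (h0 : 0 ≤ ε) (h : Corr f g ε L) :
    rho f g L ≤ ε :=
  csInf_le (rho_bdd f g L) ⟨h0, Or.inr h⟩

theorem exists_corr_of_rho_lt {f g : ℕ → ℕ → ℝ} {L : List (ℕ × ℕ)} {r : ℝ} (h : rho f g L < r)
    (hr : r ≤ 1) : ∃ ε, 0 ≤ ε ∧ ε < r ∧ Corr f g ε L := by
  obtain ⟨ε, ⟨h0, h1⟩, h2⟩ := exists_lt_of_csInf_lt ⟨1, rho_mem_one f g L⟩ h
  rcases h1 with h1 | h1
  · exact absurd (h2.trans_le hr) (not_lt.2 h1)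
  · exact ⟨ε, h0, h2, h1⟩

theorem rho_le_of_forall {f g : ℕ → ℕ → ℝ} {L : List (ℕ × ℕ)} {r : ℝ}
    (h : ∀ ε, 0 ≤ ε → (1 ≤ ε ∨ Corr f g ε L) → r ≤ ε) : r ≤ rho f g L :=
  le_csInf ⟨1, rho_mem_one f g L⟩ fun ε hε => h ε hε.1 hε.2

theorem rho_mono {f g : ℕ → ℕ → ℝ} {L L' : List (ℕ × ℕ)} (hL : ∀ p ∈ L', p ∈ L) :
    rho f g L' ≤ rho f g L := by
  refine rho_le_of_forall fun ε h0 h => ?_
  rcases h with h | h
  · exact (rho_le_one _ _ _).trans h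
  · exact rho_le h0 (h.mono le_rfl hL)

theorem rho_self (f : ℕ → ℕ → ℝ) {L : List (ℕ × ℕ)} (h : ∀ p ∈ L, p.1 = p.2) :
    rho f f L = 0 :=
  le_antisymm (rho_le le_rfl (corr_self f h)) (rho_nonneg _ _ _)

theorem rho_swap_le (f g : ℕ → ℕ → ℝ) (L : List (ℕ × ℕ)) :
    rho g f (L.map Prod.swap) ≤ rho f g L := by
  refine rho_le_of_forall fun ε h0 h => ?_
  rcases h with h | h
  · exact (rho_le_one _ _ _).trans h
  · exact rho_le h0 h.swap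

/-- `(L.map Prod.swap).map Prod.swap = L`, so both inequalities follow from `Corr.swap` -/
theorem rho_swap (f g : ℕ → ℕ → ℝ) (L : List (ℕ × ℕ)) :
    rho g f (L.map Prod.swap) = rho f g L := by
  refine le_antisymm (rho_swap_le f g L) ?_
  have := rho_swap_le g f (L.map Prod.swap)
  rw [List.map_map, Prod.swap_swap_eq, List.map_id] at this
  exact this

theorem rho_comp {f g k : ℕ → ℕ → ℝ} {L1 L2 L3 : List (ℕ × ℕ)}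
    (h : ∀ p ∈ L3, ∃ y, (p.1, y) ∈ L1 ∧ (y, p.2) ∈ L2) :
    rho f k L3 ≤ rho f g L1 + rho g k L2 := by
  rw [← sub_le_iff_le_add]
  refine rho_le_of_forall fun ε h0 h1 => ?_
  rw [sub_le_iff_le_add, ← sub_le_iff_le_add']
  refine rho_le_of_forall fun δ h2 h3 => ?_
  rw [sub_le_iff_le_add']
  rcases h3 with h3 | h3
  · exact (rho_le_one _ _ _).trans (by linarith)
  rcases h1 with h1 | h1
  · exact (rho_le_one _ _ _).trans (by linarith)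
  exact rho_le (by linarith) (h1.comp h3 h)

/-- the distortion is at most `rho` if `rho < 1` -/
theorem abs_le_rho {f g : ℕ → ℕ → ℝ} {L : List (ℕ × ℕ)} {p q : ℕ × ℕ} (hp : p ∈ L) (hq : q ∈ L)
    (h : rho f g L < 1) : |f p.1 q.1 - g p.2 q.2| ≤ rho f g L := by
  by_contra hc
  push Not at hc
  obtain ⟨ε, h0, h1, R, _, _, h3, h4⟩ := exists_corr_of_rho_lt (lt_min hc h) (min_le_right _ _)
  have := h3 _ _ _ _ (h4 p hp) (h4 q hq)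
  exact absurd (this.trans_lt (h1.trans_le (min_le_left _ _))) (lt_irrefl _)

end Pool.Agent.H82.GH
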