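import Pool.Agent.H82.GH.Defs

/-!
# GH-CORR: the Gromov-Hausdorff distance vanishes iff there are correspondences of arbitrarily
# small distortion between the dense sets

(→) Let `ε > 0`.  From `ghDist < ENNReal.ofReal (ε/4)` (`iInf_lt_iff`) get `T, φ, ψ` with
`hausdorffEDist (range φ) (range ψ) < ε/4`.
`R x y := dist (φ ↑x) (ψ ↑y) < ε/2`.  For `x : ℕ` there is `z` in the completion of `g` with
`edist (φ ↑x) (ψ z) < ε/4` (`Metric.exists_edist_lt_of_hausdorffEDist_lt`) and `y : ℕ` with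
`dist z ↑y < ε/4` (density of `Pt g` in the completion); symmetric for `y`.  The distortion is at
most `ε` since `φ`, `ψ` are isometries and `dist (↑x) (↑x') = f x x'` (`Completion.dist_eq`).
(←) It is enough that `ghDist ≤ ENNReal.ofReal (2 ε)` for all `ε > 0`.  Given `R` of distortion
`≤ ε`, let `I = {p : ℕ × ℕ // R p.1 p.2}` (nonempty), `Φ p = ↑p.1`, `Ψ p = ↑p.2` into the
completions, `H : |dist (Φ p) (Φ q) - dist (Ψ p) (Ψ q)| ≤ 2 * (ε/2)`;
`Metric.glueMetricApprox Φ Ψ (ε/2) _ H` is a metric on `Space f ⊕ Space g`, `inl`, `inr` are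
isometries, and the glued points have distance `ε/2` (`Metric.glueDist_glued_points`).  The
Hausdorff distance of `range inl` and `range inr` is at most `2 ε`
(`Metric.hausdorffEDist_le_of_mem_edist`): every point of the completion is `ε`-near to some `↑x`.
-/

namespace Pool.Agent.H82.GH

open MeasureTheory Set

private theorem corr_dist (f : Met) (x y : ℕ) :
    dist ((show Pt f from x : Pt f) : Space f) ((show Pt f from y : Pt f) : Space f) = f.1 x y := by
  rw [UniformSpace.Completion.dist_eq]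
  rfl

private theorem corr_of_ghDist (f g : Met) (h : ghDist (Space f) (Space g) = 0) {ε : ℝ}
    (hε : 0 < ε) : Corr f.1 g.1 ε [] := by
  have h1 : ghDist (Space f) (Space g) < ENNReal.ofReal (ε / 4) := by
    rw [h]
    exact ENNReal.ofReal_pos.2 (by linarith)
  unfold ghDist at h1
  simp only [iInf_lt_iff] at h1
  obtain ⟨T, hT, φ, ψ, hφ, hψ, hlt⟩ := h1
  have hε4 : 0 < ε / 4 := by linarith
  refine ⟨fun x y => dist (φ ((show Pt f from x : Pt f) : Space f))
    (ψ ((show Pt g from y : Pt g) : Space g)) < ε / 2, ?_, ?_, ?_, ?_⟩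
  · intro x
    obtain ⟨z', ⟨z, rfl⟩, hz⟩ := Metric.exists_edist_lt_of_hausdorffEDist_lt
      (mem_range_self ((show Pt f from x : Pt f) : Space f)) hlt
    rw [edist_lt_ofReal] at hz
    obtain ⟨y, hy⟩ := (UniformSpace.Completion.denseRange_coe (α := Pt g)).exists_dist_lt z hε4
    refine ⟨y, ?_⟩
    have h2 := dist_triangle (φ ((show Pt f from x : Pt f) : Space f)) (ψ z) (ψ (y : Space g))
    rw [hψ.dist_eq z] at h2
    have h3 : dist (φ ((show Pt f from x : Pt f) : Space f)) (ψ (y : Space g)) < ε / 2 := by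
      linarith
    exact h3
  · intro y
    rw [Metric.hausdorffEDist_comm] at hlt
    obtain ⟨z', ⟨z, rfl⟩, hz⟩ := Metric.exists_edist_lt_of_hausdorffEDist_lt
      (mem_range_self ((show Pt g from y : Pt g) : Space g)) hlt
    rw [edist_lt_ofReal] at hz
    obtain ⟨x, hx⟩ := (UniformSpace.Completion.denseRange_coe (α := Pt f)).exists_dist_lt z hε4
    refine ⟨x, ?_⟩
    have h2 := dist_triangle (ψ ((show Pt g from y : Pt g) : Space g)) (φ z) (φ (x : Space f))
    rw [hφ.dist_eq z, dist_comm (ψ ((show Pt g from y : Pt g) : Space g)) (φ (x : Space f))] at h2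
    have h3 : dist (φ (x : Space f)) (ψ ((show Pt g from y : Pt g) : Space g)) < ε / 2 := by
      linarith
    exact h3
  · intro x y x' y' h1 h2
    rw [← corr_dist f, ← corr_dist g, ← hφ.dist_eq, ← hψ.dist_eq]
    rw [abs_le]
    set a := φ ((show Pt f from x : Pt f) : Space f)
    set a' := φ ((show Pt f from x' : Pt f) : Space f)
    set b := ψ ((show Pt g from y : Pt g) : Space g)
    set b' := ψ ((show Pt g from y' : Pt g) : Space g)
    have t1 := dist_triangle4 a b b' a'
    have t2 := dist_triangle4 b a a' b'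
    rw [dist_comm b' a'] at t1
    rw [dist_comm b a] at t2
    constructor <;> linarith
  · intro p hp
    exact absurd hp (List.not_mem_nil)

private theorem ghDist_of_corr (f g : Met) {ε : ℝ} (hε : 0 < ε) (h : Corr f.1 g.1 ε []) :
    ghDist (Space f) (Space g) ≤ ENNReal.ofReal (2 * ε) := by
  obtain ⟨R, h1, h2, h3, -⟩ := h
  let I : Type := {p : ℕ × ℕ // R p.1 p.2}
  have : Nonempty I := by
    obtain ⟨y, hy⟩ := h1 0
    exact ⟨⟨(0, y), hy⟩⟩
  let Φ : I → Space f := fun p => ((show Pt f from p.1.1 : Pt f) : Space f)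
  let Ψ : I → Space g := fun p => ((show Pt g from p.1.2 : Pt g) : Space g)
  have H : ∀ p q, |dist (Φ p) (Φ q) - dist (Ψ p) (Ψ q)| ≤ 2 * (ε / 2) := by
    intro p q
    have e : 2 * (ε / 2) = ε := by ring
    rw [e]
    show |dist ((show Pt f from p.1.1 : Pt f) : Space f) ((show Pt f from q.1.1 : Pt f) : Space f) -
      dist ((show Pt g from p.1.2 : Pt g) : Space g) ((show Pt g from q.1.2 : Pt g) : Space g)| ≤ ε
    rw [corr_dist, corr_dist]
    exact h3 _ _ _ _ p.2 q.2
  have hε2 : 0 < ε / 2 := by linarith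
  let _ : MetricSpace (Space f ⊕ Space g) := Metric.glueMetricApprox Φ Ψ (ε / 2) hε2 H
  have hl : ∀ x y : Space f, dist (Sum.inl x : Space f ⊕ Space g) (Sum.inl y) = dist x y :=
    fun x y => rfl
  have hr : ∀ x y : Space g, dist (Sum.inr x : Space f ⊕ Space g) (Sum.inr y) = dist x y :=
    fun x y => rfl
  have hg : ∀ p : I, dist (Sum.inl (Φ p) : Space f ⊕ Space g) (Sum.inr (Ψ p)) = ε / 2 :=
    fun p => Metric.glueDist_glued_points Φ Ψ (ε / 2) p
  unfold ghDist
  refine iInf_le_of_le (Space f ⊕ Space g) (iInf_le_of_le inferInstance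
    (iInf_le_of_le Sum.inl (iInf_le_of_le Sum.inr (iInf_le_of_le (Isometry.of_dist_eq hl)
    (iInf_le_of_le (Isometry.of_dist_eq hr) ?_)))))
  refine Metric.hausdorffEDist_le_of_mem_edist ?_ ?_
  · rintro _ ⟨x, rfl⟩
    obtain ⟨n, hn⟩ := (UniformSpace.Completion.denseRange_coe (α := Pt f)).exists_dist_lt x hε
    obtain ⟨m, hm⟩ := h1 n
    refine ⟨Sum.inr (Ψ ⟨(n, m), hm⟩), mem_range_self _, ?_⟩
    rw [edist_dist]
    apply ENNReal.ofReal_le_ofReal
    have t := dist_triangle (Sum.inl x : Space f ⊕ Space g) (Sum.inl (Φ ⟨(n, m), hm⟩))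
      (Sum.inr (Ψ ⟨(n, m), hm⟩))
    rw [hl, hg] at t
    have hn' : dist x (Φ ⟨(n, m), hm⟩) < ε := hn
    linarith
  · rintro _ ⟨y, rfl⟩
    obtain ⟨m, hm⟩ := (UniformSpace.Completion.denseRange_coe (α := Pt g)).exists_dist_lt y hε
    obtain ⟨n, hn⟩ := h2 m
    refine ⟨Sum.inl (Φ ⟨(n, m), hn⟩), mem_range_self _, ?_⟩
    rw [edist_dist]
    apply ENNReal.ofReal_le_ofReal
    have t := dist_triangle (Sum.inr y : Space f ⊕ Space g) (Sum.inr (Ψ ⟨(n, m), hn⟩))
      (Sum.inl (Φ ⟨(n, m), hn⟩))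
    rw [hr, dist_comm (Sum.inr (Ψ ⟨(n, m), hn⟩) : Space f ⊕ Space g), hg] at t
    have hm' : dist y (Ψ ⟨(n, m), hn⟩) < ε := hm
    linarith

theorem ghDist_eq_zero_iff (f g : Met) :
    ghDist (Space f) (Space g) = 0 ↔ ∀ ε > 0, Corr f.1 g.1 ε [] := by
  constructor
  · intro h ε hε
    exact corr_of_ghDist f g h hε
  · intro h
    refine le_antisymm (ENNReal.le_of_forall_pos_le_add fun ε hε _ => ?_) zero_le
    have hε' : (0 : ℝ) < (ε : ℝ) / 2 := by positivity
    have h1 := ghDist_of_corr f g hε' (h _ hε')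
    rw [zero_add]
    refine h1.trans (le_of_eq ?_)
    rw [show 2 * ((ε : ℝ) / 2) = (ε : ℝ) from by ring, ENNReal.ofReal_coe_nnreal]

end Pool.Agent.H82.GH
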