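import Pool.Agent.H82.GH.Rho

/-!
# GH-ANAL: `rho f f L` is measurable for the σ-algebra generated by the analytic sets

* `measurableSet_isMet`: the set of metrics is Borel in `ℕ → ℕ → ℝ` (countable intersection of
  closed conditions and of the conditions `f x y ≠ 0`).
* `analyticSet_of_image`: if the image of `s : Set Met` in `ℕ → ℕ → ℝ` is analytic then `s` is
  analytic (the continuous map `(ℕ → ℕ) → (ℕ → ℕ → ℝ)` with this range takes values in metrics,
  `Continuous.subtype_mk`).
* Borel sets of metrics are in `sigmaAn`: their image is Borel (`MeasurableSet.subtype_image`),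
  so analytic (`MeasurableSet.analyticSet`).
* `analyticSet_corr`: the set of pairs `(f, R)` in `(ℕ → ℕ → ℝ) × (ℕ → ℕ → Bool)` with `f` a
  metric and `R` a correspondence of distortion `≤ ε` containing `L` is Borel; its projection is
  analytic (`MeasurableSet.analyticSet.image_of_continuous` or `AnalyticSet.image_of_continuous`).
* `{f | rho f f L < r}` is a countable union of sets `{f | Corr f f q L}`, `q` rational
  (`0 ≤ q < r`, by monotonicity of `Corr` in `ε`), or everything / empty when `r > 1` / `r ≤ 0`;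
  use `measurable_of_Iio`.
-/

namespace Pool.Agent.H82.GH

open MeasureTheory Set

theorem anal_eval (x y : ℕ) : Measurable fun f : ℕ → ℕ → ℝ => f x y :=
  (measurable_pi_apply y).comp (measurable_pi_apply x)

theorem measurableSet_isMet : MeasurableSet {f : ℕ → ℕ → ℝ | IsMet f} := by
  have he : {f : ℕ → ℕ → ℝ | IsMet f} =
      {f : ℕ → ℕ → ℝ | (∀ x y, f x y = 0 ↔ x = y) ∧ (∀ x y, f x y = f y x) ∧
        ∀ x y z, f x z ≤ f x y + f y z} := by
    ext f
    exact ⟨fun h => ⟨h.1, h.2, h.3⟩, fun h => ⟨h.1, h.2.1, h.2.2⟩⟩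
  rw [he]
  refine measurableSet_setOfPred.2 (Measurable.and ?_ (Measurable.and ?_ ?_))
  · refine Measurable.forall fun x => Measurable.forall fun y => Measurable.iff ?_ measurable_const
    exact measurableSet_setOfPred.1 (measurableSet_eq_fun (anal_eval x y) measurable_const)
  · refine Measurable.forall fun x => Measurable.forall fun y => ?_
    exact measurableSet_setOfPred.1 (measurableSet_eq_fun (anal_eval x y) (anal_eval y x))
  · refine Measurable.forall fun x => Measurable.forall fun y => Measurable.forall fun z => ?_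
    exact measurableSet_setOfPred.1
      (measurableSet_le (anal_eval x z) ((anal_eval x y).add (anal_eval y z)))

theorem anal_of_image {s : Set Met} (h : AnalyticSet ((fun f : Met => f.1) '' s)) :
    AnalyticSet s := by
  rw [analyticSet_iff_exists_polishSpace_range] at h ⊢
  obtain ⟨β, hβ, hp, F, hF, hr⟩ := h
  have hm : ∀ b, ∃ f : Met, f ∈ s ∧ f.1 = F b := by
    intro b
    have : F b ∈ (fun f : Met => f.1) '' s := by
      rw [← hr]
      exact mem_range_self b
    obtain ⟨f, hf, hf'⟩ := this
    exact ⟨f, hf, hf'⟩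
  choose G hG hG' using hm
  refine ⟨β, hβ, hp, G, ?_, ?_⟩
  · refine Topology.IsInducing.subtypeVal.continuous_iff.2 ?_
    exact hF.congr fun b => (hG' b).symm
  · ext f
    constructor
    · rintro ⟨b, rfl⟩
      exact hG b
    · intro hf
      have : f.1 ∈ range F := by
        rw [hr]
        exact ⟨f, hf, rfl⟩
      obtain ⟨b, hb⟩ := this
      exact ⟨b, Subtype.ext ((hG' b).trans hb)⟩

theorem measurableSet_sigmaAn {s : Set Met} (hs : MeasurableSet s) : MeasurableSet[sigmaAn] s := by
  refine MeasurableSpace.measurableSet_generateFrom ?_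
  refine anal_of_image ?_
  have h : MeasurableSet (Subtype.val '' s : Set (ℕ → ℕ → ℝ)) :=
    MeasurableSet.subtype_image measurableSet_isMet hs
  exact h.analyticSet

/-- the set of pairs (metric, correspondence) -/
def AnalSet (ε : ℝ) (L : List (ℕ × ℕ)) : Set ((ℕ → ℕ → ℝ) × (ℕ → ℕ → Bool)) :=
  {P | IsMet P.1 ∧ (∀ x, ∃ y, P.2 x y = true) ∧ (∀ y, ∃ x, P.2 x y = true) ∧
    (∀ x y x' y', P.2 x y = true → P.2 x' y' = true → |P.1 x x' - P.1 y y'| ≤ ε) ∧
    ∀ p ∈ L, P.2 p.1 p.2 = true}

theorem anal_measurable_R (x y : ℕ) :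
    Measurable fun P : (ℕ → ℕ → ℝ) × (ℕ → ℕ → Bool) => P.2 x y = true := by
  have h : Measurable fun P : (ℕ → ℕ → ℝ) × (ℕ → ℕ → Bool) => P.2 x y :=
    (measurable_pi_apply y).comp ((measurable_pi_apply x).comp measurable_snd)
  exact measurableSet_setOfPred.1 (measurableSet_eq_fun h measurable_const)

theorem anal_measurableSet (ε : ℝ) (L : List (ℕ × ℕ)) : MeasurableSet (AnalSet ε L) := by
  refine measurableSet_setOfPred.2 (Measurable.and ?_ (Measurable.and ?_ (Measurable.and ?_
    (Measurable.and ?_ ?_))))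
  · exact measurableSet_setOfPred.1 (measurable_fst measurableSet_isMet)
  · exact Measurable.forall fun x => Measurable.exists fun y => anal_measurable_R x y
  · exact Measurable.forall fun x => Measurable.exists fun y => anal_measurable_R y x
  · refine Measurable.forall fun x => Measurable.forall fun y => Measurable.forall fun x' =>
      Measurable.forall fun y' => Measurable.imp (anal_measurable_R _ _)
        (Measurable.imp (anal_measurable_R _ _) ?_)
    refine measurableSet_setOfPred.1 (measurableSet_le ?_ measurable_const)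
    exact measurable_norm.comp (((anal_eval x x').comp measurable_fst).sub
      ((anal_eval y y').comp measurable_fst))
  · exact Measurable.forall fun p => Measurable.imp measurable_const (anal_measurable_R _ _)

theorem analyticSet_corr (ε : ℝ) (L : List (ℕ × ℕ)) :
    AnalyticSet {f : Met | Corr f.1 f.1 ε L} := by
  classical
  refine anal_of_image ?_
  have hc : TopologicalSpace.IsCompletelyMetrizableSpace (ℕ → ℕ → Bool) := inferInstance
  have hs : SecondCountableTopology (ℕ → ℕ → Bool) := inferInstance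
  have hp : PolishSpace (ℕ → ℕ → Bool) := ⟨⟩
  have h : AnalyticSet (Prod.fst '' AnalSet ε L) :=
    (anal_measurableSet ε L).analyticSet.image_of_continuous continuous_fst
  have he : (fun f : Met => f.1) '' {f : Met | Corr f.1 f.1 ε L} = Prod.fst '' AnalSet ε L := by
    ext f
    constructor
    · rintro ⟨f, ⟨R, h1, h2, h3, h4⟩, rfl⟩
      refine ⟨(f.1, fun x y => decide (R x y)), ⟨f.2, ?_, ?_, ?_, ?_⟩, rfl⟩
      · intro x
        obtain ⟨y, hy⟩ := h1 x
        exact ⟨y, decide_eq_true hy⟩
      · intro y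
        obtain ⟨x, hx⟩ := h2 y
        exact ⟨x, decide_eq_true hx⟩
      · intro x y x' y' ha hb
        exact h3 x y x' y' (of_decide_eq_true ha) (of_decide_eq_true hb)
      · intro p hp
        exact decide_eq_true (h4 p hp)
    · rintro ⟨⟨g, R⟩, ⟨h0, h1, h2, h3, h4⟩, rfl⟩
      exact ⟨⟨g, h0⟩, ⟨fun x y => R x y = true, h1, h2, h3, h4⟩, rfl⟩
  rw [he]
  exact h

theorem anal_rho_lt (f : Met) (L : List (ℕ × ℕ)) {r : ℝ} (hr : r ≤ 1) :
    rho f.1 f.1 L < r ↔ ∃ q : ℚ, (0 ≤ (q : ℝ) ∧ (q : ℝ) < r) ∧ Corr f.1 f.1 q L := by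
  constructor
  · intro h
    obtain ⟨ε, h0, h1, h2⟩ := exists_corr_of_rho_lt h hr
    obtain ⟨q, hq1, hq2⟩ := exists_rat_btwn h1
    exact ⟨q, ⟨h0.trans hq1.le, hq2⟩, h2.mono hq1.le fun p hp => hp⟩
  · rintro ⟨q, ⟨h0, h1⟩, h2⟩
    exact lt_of_le_of_lt (rho_le h0 h2) h1

theorem measurable_rho (L : List (ℕ × ℕ)) :
    Measurable[sigmaAn] fun f : Met => rho f.1 f.1 L := by
  refine @measurable_of_Iio ℝ Met _ _ _ sigmaAn _ _ _ _ fun r => ?_
  by_cases hr : r ≤ 1
  · have he : (fun f : Met => rho f.1 f.1 L) ⁻¹' Iio r =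
        ⋃ (q : ℚ) (_ : 0 ≤ (q : ℝ) ∧ (q : ℝ) < r), {f : Met | Corr f.1 f.1 q L} := by
      ext f
      simp only [mem_iUnion, exists_prop]
      exact anal_rho_lt f L hr
    rw [he]
    refine @MeasurableSet.iUnion _ _ sigmaAn _ _ fun q => ?_
    refine @MeasurableSet.iUnion _ _ sigmaAn _ _ fun _ => ?_
    exact MeasurableSpace.measurableSet_generateFrom (analyticSet_corr _ _)
  · have he : (fun f : Met => rho f.1 f.1 L) ⁻¹' Iio r = univ :=
      eq_univ_of_forall fun f => lt_of_le_of_lt (rho_le_one _ _ _) (not_le.1 hr)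
    rw [he]
    exact @MeasurableSet.univ _ sigmaAn

end Pool.Agent.H82.GH
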