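import Pool.Agent.H82.GH.Defs

/-!
# GH-BF: a set of finite partial correspondences with the extension property gives a
# correspondence

Proof. Build by recursion (choice) a chain `L 0 = L`, `L (n+1) = (x, y) :: (x', y') :: L n` in
`S`, where `x = n` (with `y` from `hf`) and `y' = n` (with `x'` from `hb`).  Put
`R x y := ∃ n, (x, y) ∈ L n`.  The lists increase (as sets), so two pairs of `R` lie in a common
`L n`, and `hd` bounds the distortion.  (Work in the subtype `{L // S L}`.)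
-/

namespace Pool.Agent.H82.GH

theorem corr_of_bf {f g : ℕ → ℕ → ℝ} {ε : ℝ} (S : List (ℕ × ℕ) → Prop)
    (hf : ∀ L, S L → ∀ x, ∃ y, S ((x, y) :: L)) (hb : ∀ L, S L → ∀ y, ∃ x, S ((x, y) :: L))
    (hd : ∀ L, S L → ∀ p ∈ L, ∀ q ∈ L, |f p.1 q.1 - g p.2 q.2| ≤ ε) {L : List (ℕ × ℕ)}
    (hL : S L) : Corr f g ε L := by
  have step : ∀ (n : ℕ) (L : {L : List (ℕ × ℕ) // S L}), ∃ L' : {L : List (ℕ × ℕ) // S L},
      (∃ y, (n, y) ∈ L'.1) ∧ (∃ x, (x, n) ∈ L'.1) ∧ ∀ p ∈ L.1, p ∈ L'.1 := by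
    intro n L
    obtain ⟨x', hx'⟩ := hb L.1 L.2 n
    obtain ⟨y, hy⟩ := hf _ hx' n
    exact ⟨⟨_, hy⟩, ⟨y, by simp⟩, ⟨x', by simp⟩, fun p hp => by simp [hp]⟩
  choose F hF1 hF2 hF3 using step
  let C : ℕ → {L : List (ℕ × ℕ) // S L} := fun n => Nat.rec ⟨L, hL⟩ (fun n M => F n M) n
  have hC0 : C 0 = ⟨L, hL⟩ := rfl
  have hCs : ∀ n, C (n + 1) = F n (C n) := fun n => rfl
  have hmono1 : ∀ n, ∀ p ∈ (C n).1, p ∈ (C (n + 1)).1 := by
    intro n p hp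
    rw [hCs]
    exact hF3 n (C n) p hp
  have hmono : ∀ m n, m ≤ n → ∀ p ∈ (C m).1, p ∈ (C n).1 := by
    intro m n hmn
    induction hmn with
    | refl => exact fun p hp => hp
    | step h ih => exact fun p hp => hmono1 _ p (ih p hp)
  refine ⟨fun x y => ∃ n, (x, y) ∈ (C n).1, ?_, ?_, ?_, ?_⟩
  · intro x
    obtain ⟨y, hy⟩ := hF1 x (C x)
    exact ⟨y, x + 1, by rw [hCs]; exact hy⟩
  · intro y
    obtain ⟨x, hx⟩ := hF2 y (C y)
    exact ⟨x, y + 1, by rw [hCs]; exact hx⟩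
  · rintro x y x' y' ⟨m, hm⟩ ⟨n, hn⟩
    have h1 := hmono m (max m n) (le_max_left _ _) _ hm
    have h2 := hmono n (max m n) (le_max_right _ _) _ hn
    exact hd (C (max m n)).1 (C (max m n)).2 _ h1 _ h2
  · intro p hp
    exact ⟨0, hp⟩

end Pool.Agent.H82.GH
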