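import Mathlib

/-!
# Definitions for the Gromov-Hausdorff equivalence relation

`Met` is the space of metrics on `ℕ`, `Space f` the completion of `(ℕ, f)`, `ghDist` the
Gromov-Hausdorff distance.
-/

namespace Pool.Agent.H82.GH

open MeasureTheory Set
open scoped Ordinal

/-- `f` is a metric on `ℕ` -/
structure IsMet (f : ℕ → ℕ → ℝ) : Prop where
  zero_iff : ∀ x y, f x y = 0 ↔ x = y
  symm : ∀ x y, f x y = f y x
  tri : ∀ x y z, f x z ≤ f x y + f y z

/-- the space of all metrics on `ℕ`, with the topology (and its Borel sets) inherited from the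
product topology of `ℕ → ℕ → ℝ` -/
abbrev Met : Type := {f : ℕ → ℕ → ℝ // IsMet f}

/-- the set `ℕ`, regarded as the metric space `(ℕ, f)` -/
def Pt (_f : Met) : Type := ℕ

noncomputable instance (f : Met) : MetricSpace (Pt f) where
  dist x y := f.1 x y
  dist_self x := (f.2.zero_iff x x).2 rfl
  dist_comm x y := f.2.symm x y
  dist_triangle x y z := f.2.tri x y z
  eq_of_dist_eq_zero {x y} h := (f.2.zero_iff x y).1 h

/-- `M_f`, the completion of `(ℕ, f)` -/
abbrev Space (f : Met) : Type := UniformSpace.Completion (Pt f)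

/-- the Gromov-Hausdorff distance of two metric spaces: the infimum of the Hausdorff distances of
their images under isometric embeddings into a common metric space -/
noncomputable def ghDist (X Y : Type) [MetricSpace X] [MetricSpace Y] : ENNReal :=
  ⨅ (T : Type) (_ : MetricSpace T) (φ : X → T) (ψ : Y → T) (_ : Isometry φ) (_ : Isometry ψ),
    Metric.hausdorffEDist (range φ) (range ψ)

/-- there is a correspondence between `(ℕ, f)` and `(ℕ, g)` of distortion at most `ε` which
contains all pairs in the list `L` -/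
def Corr (f g : ℕ → ℕ → ℝ) (ε : ℝ) (L : List (ℕ × ℕ)) : Prop :=
  ∃ R : ℕ → ℕ → Prop, (∀ x, ∃ y, R x y) ∧ (∀ y, ∃ x, R x y) ∧
    (∀ x y x' y', R x y → R x' y' → |f x x' - g y y'| ≤ ε) ∧ ∀ p ∈ L, R p.1 p.2

/-- the infimum of the distortions of the correspondences that contain `L`, truncated at `1` -/
noncomputable def rho (f g : ℕ → ℕ → ℝ) (L : List (ℕ × ℕ)) : ℝ :=
  sInf {ε | 0 ≤ ε ∧ (1 ≤ ε ∨ Corr f g ε L)}

/-- truncation to `[0, 1]` -/
noncomputable def clamp (t : ℝ) : ℝ := max 0 (min t 1)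

/-- markers `(n, i, j, l)` -/
abbrev Mk : Type := ℕ × ℕ × ℕ × ℕ

/-- the predicate of the marker `k = (n, i, j, l)`, for tuples `a` of length `n` it is
`(1 + clamp (f (a i) (a j) - l)) / 2` -/
noncomputable def pr (f : ℕ → ℕ → ℝ) (k : Mk) (a : List ℕ) : ℝ :=
  if a.length = k.1 then
    (1 + (if k.2.1 < k.1 ∧ k.2.2.1 < k.1 then
      clamp (f (a.getD k.2.1 0) (a.getD k.2.2.1 0) - (k.2.2.2 : ℝ)) else 0)) / 2
  else 0

/-- the weight of a marker -/
noncomputable def wt (k : Mk) : ℝ := 10 * ((Encodable.encode k : ℝ) + 1)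

/-- the points of the coding space: markers and finite tuples -/
abbrev Z : Type := Mk ⊕ List ℕ

/-- the distance of the coding spaces of `f` and `g` -/
noncomputable def DD (ρ : List (ℕ × ℕ) → ℝ) (f g : ℕ → ℕ → ℝ) : Z → Z → ℝ
  | .inl k, .inl l => if k = l then 0 else wt k + wt l
  | .inl k, .inr b => wt k + pr g k b
  | .inr a, .inl l => wt l + pr f l a
  | .inr a, .inr b => (if a.length = b.length then 0 else 2) + ρ (List.zip a b)

/-- `D` is a pseudometric -/
structure IsPMet {X : Type} (D : X → X → ℝ) : Prop where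
  self : ∀ x, D x x = 0
  symm : ∀ x y, D x y = D y x
  tri : ∀ x y z, D x z ≤ D x y + D y z

/-- `θ` glues the pseudometric spaces `(X, D)` and `(Y, D')` in such a way that each of them is
dense in the union; so `θ x y` is the distance of `φ x` and `y` for an isometry `φ` of the
completions -/
structure Glue {X Y : Type} (D : X → X → ℝ) (D' : Y → Y → ℝ) (θ : X → Y → ℝ) : Prop where
  left : ∀ x x' y, θ x y ≤ D x x' + θ x' y
  right : ∀ x y y', θ x y ≤ θ x y' + D' y' y
  left' : ∀ x x' y, D x x' ≤ θ x y + θ x' y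
  right' : ∀ x y y', D' y y' ≤ θ x y + θ x y'
  dense : ∀ x, ∀ η : ℝ, 0 < η → ∃ y, θ x y < η
  dense' : ∀ y, ∀ η : ℝ, 0 < η → ∃ x, θ x y < η

/-- an enumeration of the points of the coding space -/
noncomputable def enumZ : ℕ ≃ Z := (Denumerable.eqv Z).symm

/-- the `n`-th point has positive distance to all earlier points -/
def Kept (D : Z → Z → ℝ) (n : ℕ) : Prop := ∀ m < n, D (enumZ m) (enumZ n) ≠ 0

/-- the metric on `ℕ` that codes the metric quotient of `(Z, D)` -/
noncomputable def reenum (D : Z → Z → ℝ) (i j : ℕ) : ℝ :=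
  D (enumZ (Nat.nth (Kept D) i)) (enumZ (Nat.nth (Kept D) j))

/-- the back-and-forth relation of rank `α` with error `ε` between `(ℕ, f)` and `(ℕ, g)`, for
the partial correspondence `L` -/
def W (f g : ℕ → ℕ → ℝ) (α : Ordinal.{0}) (ε : ℝ) (L : List (ℕ × ℕ)) : Prop :=
  (∀ p ∈ L, ∀ q ∈ L, |f p.1 q.1 - g p.2 q.2| ≤ ε) ∧
  ∀ (β : Ordinal.{0}) (_ : β < α), ∀ ε' > ε,
    (∀ x, ∃ y, W f g β ε' ((x, y) :: L)) ∧ (∀ y, ∃ x, W f g β ε' ((x, y) :: L))
termination_by α

/-- the truncated distance of rank `α` -/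
noncomputable def rhoW (α : Ordinal.{0}) (f g : ℕ → ℕ → ℝ) (L : List (ℕ × ℕ)) : ℝ :=
  sInf {ε | 0 ≤ ε ∧ (1 ≤ ε ∨ W f g α ε L)}

/-- the metrics of rank at most `α` -/
def Rk (α : Ordinal.{0}) : Set Met :=
  {f | ∀ L ε, W f.1 f.1 α ε L → W f.1 f.1 (α + 1) ε L}

/-- the σ-algebra generated by the analytic sets of metrics -/
abbrev sigmaAn : MeasurableSpace Met := MeasurableSpace.generateFrom {s : Set Met | AnalyticSet s}

end Pool.Agent.H82.GH
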