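import Pool.Agent.H82.GH.Rho

/-!
# GH-DIST: the global distance `DD (rho f g) f g` is a pseudometric

* `pr` is `rho`-Lipschitz: for `|a| = |b| = n` and `i, j < n` the pairs `(a i, b i)`, `(a j, b j)`
  are in `zip a b`; `clamp` is 1-Lipschitz with values in `[0, 1]`; if `rho f g (zip a b) < 1` use
  `abs_le_rho`, otherwise the difference is at most `1/2 ≤ 1 = rho`.
* symmetry: `List.zip_swap` : `(zip l₁ l₂).map Prod.swap = zip l₂ l₁` and `rho_swap`.
* triangle inequality, cases by the three kinds of points.  Markers only: `wt k ≥ 10`.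
  marker, marker, tuple etc.: `0 ≤ pr ≤ 1`.  tuple `a`, marker, tuple `c`: the left side is at most
  `3`, the right side at least `20`.  marker `k`, tuple `b`, tuple `c`: if `|b| ≠ |c|` the last
  distance is at least `2`, otherwise `pr` is Lipschitz.  Three tuples `a, b, c`: if
  `min |a| |c| ≤ |b|` then `zip a c` is covered by `zip a b` and `zip b c` (index by index), use
  `rho_comp`, and `[|a| ≠ |c|] ≤ [|a| ≠ |b|] + [|b| ≠ |c|]`.  If `|b| < min |a| |c|` then
  `|b| ≠ |a|` and `|b| ≠ |c|`, so the right side is at least `4` and the left side at most `3`.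
  (Prove first the inequalities for general functions `f, g, k`; nothing about them is used.)
* `glue_of_corr`: `θ = DD (rho f g) f g`; the four inequalities are cases of the triangle
  inequality and symmetry, density: a marker is at distance `0` from the same marker
  (`DD .. (inl k) (inl k) = 0`); for a tuple `a` take a correspondence `R` with distortion
  `≤ ε = min (η/2) (1/2)`, choose for each `x` of `a` some `y` with `R x y` (a list `b = a.map F`
  with `R x (F x)`), all pairs of `zip a b` are in `R`, so `rho f g (zip a b) ≤ ε`.  The other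
  density statement is the same with `R` used in the other direction.
-/

namespace Pool.Agent.H82.GH

theorem clamp_nonneg (t : ℝ) : 0 ≤ clamp t := by
  unfold clamp
  exact le_max_left _ _

theorem clamp_le_one (t : ℝ) : clamp t ≤ 1 := by
  unfold clamp
  exact max_le zero_le_one (min_le_right _ _)

theorem abs_clamp_sub_le (s t : ℝ) : |clamp s - clamp t| ≤ |s - t| := by
  unfold clamp
  calc |max 0 (min s 1) - max 0 (min t 1)| ≤ max |(0 : ℝ) - 0| |min s 1 - min t 1| :=
        abs_max_sub_max_le_max _ _ _ _
    _ = |min s 1 - min t 1| := by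
        rw [sub_self, abs_zero]; exact max_eq_right (abs_nonneg _)
    _ ≤ max |s - t| |(1 : ℝ) - 1| := abs_min_sub_min_le_max _ _ _ _
    _ = |s - t| := by
        rw [sub_self, abs_zero]; exact max_eq_left (abs_nonneg _)

theorem pr_nonneg (f : ℕ → ℕ → ℝ) (k : Mk) (a : List ℕ) : 0 ≤ pr f k a := by
  unfold pr
  split_ifs
  · have := clamp_nonneg (f (a.getD k.2.1 0) (a.getD k.2.2.1 0) - (k.2.2.2 : ℝ))
    linarith
  · norm_num
  · exact le_refl _

theorem pr_le_one (f : ℕ → ℕ → ℝ) (k : Mk) (a : List ℕ) : pr f k a ≤ 1 := by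
  unfold pr
  split_ifs
  · have := clamp_le_one (f (a.getD k.2.1 0) (a.getD k.2.2.1 0) - (k.2.2.2 : ℝ))
    linarith
  · norm_num
  · exact zero_le_one

theorem ten_le_wt (k : Mk) : 10 ≤ wt k := by
  unfold wt
  have : (0 : ℝ) ≤ (Encodable.encode k : ℝ) := Nat.cast_nonneg _
  linarith

theorem abs_wt_sub_wt {k l : Mk} (h : k ≠ l) : 10 ≤ |wt k - wt l| := by
  unfold wt
  have hne : Encodable.encode k ≠ Encodable.encode l := fun e => h (Encodable.encode_injective e)
  have h1 : (1 : ℝ) ≤ |(Encodable.encode k : ℝ) - (Encodable.encode l : ℝ)| := by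
    rcases lt_or_gt_of_ne hne with hlt | hlt
    · have : (Encodable.encode k : ℝ) + 1 ≤ (Encodable.encode l : ℝ) := by exact_mod_cast hlt
      rw [abs_sub_comm]
      exact le_trans (by linarith) (le_abs_self _)
    · have : (Encodable.encode l : ℝ) + 1 ≤ (Encodable.encode k : ℝ) := by exact_mod_cast hlt
      exact le_trans (by linarith) (le_abs_self _)
  have h2 : 10 * ((Encodable.encode k : ℝ) + 1) - 10 * ((Encodable.encode l : ℝ) + 1) =
      10 * ((Encodable.encode k : ℝ) - (Encodable.encode l : ℝ)) := by ring
  rw [h2, abs_mul]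
  have h3 : |(10 : ℝ)| = 10 := by norm_num
  rw [h3]
  linarith

private theorem dist_mem_zip {a b : List ℕ} {i : ℕ} (ha : i < a.length) (hb : i < b.length) :
    (a.getD i 0, b.getD i 0) ∈ List.zip a b := by
  rw [List.mem_iff_getElem]
  refine ⟨i, ?_, ?_⟩
  · rw [List.length_zip]; exact lt_min ha hb
  · rw [List.getElem_zip, List.getD_eq_getElem _ _ ha, List.getD_eq_getElem _ _ hb]

theorem abs_pr_sub_pr (f g : ℕ → ℕ → ℝ) (k : Mk) {a b : List ℕ} (h : a.length = b.length) :
    |pr f k a - pr g k b| ≤ rho f g (List.zip a b) := by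
  have h0 := rho_nonneg f g (List.zip a b)
  by_cases hk : a.length = k.1
  · have hk' : b.length = k.1 := by rw [← h, hk]
    by_cases hij : k.2.1 < k.1 ∧ k.2.2.1 < k.1
    · have e1 : pr f k a = (1 + clamp (f (a.getD k.2.1 0) (a.getD k.2.2.1 0) -
          (k.2.2.2 : ℝ))) / 2 := by
        unfold pr; rw [if_pos hk, if_pos hij]
      have e2 : pr g k b = (1 + clamp (g (b.getD k.2.1 0) (b.getD k.2.2.1 0) -
          (k.2.2.2 : ℝ))) / 2 := by
        unfold pr; rw [if_pos hk', if_pos hij]
      rw [e1, e2]
      set s := f (a.getD k.2.1 0) (a.getD k.2.2.1 0) with hs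
      set t := g (b.getD k.2.1 0) (b.getD k.2.2.1 0) with ht
      have e3 : (1 + clamp (s - (k.2.2.2 : ℝ))) / 2 - (1 + clamp (t - (k.2.2.2 : ℝ))) / 2 =
          (clamp (s - (k.2.2.2 : ℝ)) - clamp (t - (k.2.2.2 : ℝ))) / 2 := by ring
      have h1 : |(clamp (s - (k.2.2.2 : ℝ)) - clamp (t - (k.2.2.2 : ℝ))) / 2| =
          |clamp (s - (k.2.2.2 : ℝ)) - clamp (t - (k.2.2.2 : ℝ))| / 2 := by
        rw [abs_div]; norm_num
      rw [e3, h1]
      by_cases hr : rho f g (List.zip a b) < 1
      · have h2 := abs_le_rho (f := f) (g := g) (L := List.zip a b)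
          (dist_mem_zip (a := a) (b := b) (i := k.2.1) (by rw [hk]; exact hij.1)
            (by rw [hk']; exact hij.1))
          (dist_mem_zip (a := a) (b := b) (i := k.2.2.1) (by rw [hk]; exact hij.2)
            (by rw [hk']; exact hij.2)) hr
        have h3 := abs_clamp_sub_le (s - (k.2.2.2 : ℝ)) (t - (k.2.2.2 : ℝ))
        have e4 : s - (k.2.2.2 : ℝ) - (t - (k.2.2.2 : ℝ)) = s - t := by ring
        rw [e4] at h3
        have h4 : |s - t| ≤ rho f g (List.zip a b) := h2
        have h5 := abs_nonneg (clamp (s - (k.2.2.2 : ℝ)) - clamp (t - (k.2.2.2 : ℝ)))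
        linarith
      · have h2 : |clamp (s - (k.2.2.2 : ℝ)) - clamp (t - (k.2.2.2 : ℝ))| ≤ 1 := by
          rw [abs_le]
          have := clamp_nonneg (s - (k.2.2.2 : ℝ))
          have := clamp_nonneg (t - (k.2.2.2 : ℝ))
          have := clamp_le_one (s - (k.2.2.2 : ℝ))
          have := clamp_le_one (t - (k.2.2.2 : ℝ))
          constructor <;> linarith
        have h3 := not_lt.1 hr
        linarith
    · have e1 : pr f k a = (1 + 0) / 2 := by
        unfold pr; rw [if_pos hk, if_neg hij]
      have e2 : pr g k b = (1 + 0) / 2 := by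
        unfold pr; rw [if_pos hk', if_neg hij]
      rw [e1, e2, sub_self, abs_zero]
      exact h0
  · have hk' : ¬ b.length = k.1 := by rw [← h]; exact hk
    have e1 : pr f k a = 0 := by
      unfold pr; rw [if_neg hk]
    have e2 : pr g k b = 0 := by
      unfold pr; rw [if_neg hk']
    rw [e1, e2, sub_self, abs_zero]
    exact h0

theorem DD_nonneg (f g : ℕ → ℕ → ℝ) (x y : Z) : 0 ≤ DD (rho f g) f g x y := by
  rcases x with k | a <;> rcases y with l | b
  · simp only [DD]
    split_ifs
    · exact le_refl _
    · have := ten_le_wt k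
      have := ten_le_wt l
      linarith
  · simp only [DD]
    have := ten_le_wt k
    have := pr_nonneg g k b
    linarith
  · simp only [DD]
    have := ten_le_wt l
    have := pr_nonneg f l a
    linarith
  · simp only [DD]
    have := rho_nonneg f g (List.zip a b)
    split_ifs <;> linarith

private theorem dist_mem_zip_self {a : List ℕ} {p : ℕ × ℕ} (hp : p ∈ List.zip a a) :
    p.1 = p.2 := by
  rw [List.mem_iff_getElem] at hp
  obtain ⟨i, hi, e⟩ := hp
  rw [List.getElem_zip] at e
  rw [← e]

theorem DD_self (f : ℕ → ℕ → ℝ) (x : Z) : DD (rho f f) f f x x = 0 := by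
  rcases x with k | a
  · simp only [DD, if_true]
  · simp only [DD, if_true]
    rw [rho_self f (fun p hp => dist_mem_zip_self hp), add_zero]

theorem DD_symm (f g : ℕ → ℕ → ℝ) (x y : Z) : DD (rho f g) f g x y = DD (rho g f) g f y x := by
  rcases x with k | a <;> rcases y with l | b
  · simp only [DD]
    by_cases h : k = l
    · rw [if_pos h, if_pos h.symm]
    · rw [if_neg h, if_neg (fun e => h e.symm), add_comm]
  · simp only [DD]
  · simp only [DD]
  · simp only [DD]
    have h1 : rho g f (List.zip b a) = rho f g (List.zip a b) := by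
      rw [← rho_swap f g (List.zip a b), List.zip_swap]
    rw [h1]
    by_cases h : a.length = b.length
    · rw [if_pos h, if_pos h.symm]
    · rw [if_neg h, if_neg (fun e => h e.symm)]

private theorem dist_tri_tuple (f g k : ℕ → ℕ → ℝ) (a b c : List ℕ) :
    (if a.length = c.length then (0 : ℝ) else 2) + rho f k (List.zip a c) ≤
      ((if a.length = b.length then (0 : ℝ) else 2) + rho f g (List.zip a b)) +
      ((if b.length = c.length then (0 : ℝ) else 2) + rho g k (List.zip b c)) := by
  have h1 := rho_nonneg f g (List.zip a b)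
  have h2 := rho_nonneg g k (List.zip b c)
  have h3 := rho_le_one f k (List.zip a c)
  have h5 : (if a.length = c.length then (0 : ℝ) else 2) ≤
      (if a.length = b.length then (0 : ℝ) else 2) +
      (if b.length = c.length then (0 : ℝ) else 2) := by
    by_cases hab : a.length = b.length
    · by_cases hbc : b.length = c.length
      · rw [if_pos hab, if_pos hbc, if_pos (hab.trans hbc)]; norm_num
      · rw [if_pos hab, if_neg hbc, if_neg (fun e => hbc (hab.symm.trans e))]; norm_num
    · rw [if_neg hab]
      have : (0 : ℝ) ≤ (if b.length = c.length then (0 : ℝ) else 2) := by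
        split_ifs <;> norm_num
      have : (if a.length = c.length then (0 : ℝ) else 2) ≤ 2 := by
        split_ifs <;> norm_num
      linarith
  by_cases hmin : min a.length c.length ≤ b.length
  · have h4 : rho f k (List.zip a c) ≤ rho f g (List.zip a b) + rho g k (List.zip b c) := by
      apply rho_comp
      intro p hp
      rw [List.mem_iff_getElem] at hp
      obtain ⟨i, hi, e⟩ := hp
      rw [List.length_zip] at hi
      have hia : i < a.length := lt_of_lt_of_le hi (min_le_left _ _)
      have hic : i < c.length := lt_of_lt_of_le hi (min_le_right _ _)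
      have hib : i < b.length := lt_of_lt_of_le hi hmin
      rw [List.getElem_zip] at e
      refine ⟨b.getD i 0, ?_, ?_⟩
      · have := dist_mem_zip (a := a) (b := b) hia hib
        rw [List.getD_eq_getElem _ _ hia] at this
        rw [← e]
        exact this
      · have := dist_mem_zip (a := b) (b := c) hib hic
        rw [List.getD_eq_getElem _ _ hic] at this
        rw [← e]
        exact this
    linarith
  · have hmin := not_le.1 hmin
    have hab : ¬ a.length = b.length := by
      intro e
      have := lt_of_lt_of_le hmin (min_le_left _ _)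
      omega
    have hbc : ¬ b.length = c.length := by
      intro e
      have := lt_of_lt_of_le hmin (min_le_right _ _)
      omega
    rw [if_neg hab, if_neg hbc]
    have : (if a.length = c.length then (0 : ℝ) else 2) ≤ 2 := by
      split_ifs <;> norm_num
    linarith

theorem DD_tri (f g k : ℕ → ℕ → ℝ) (x y z : Z) :
    DD (rho f k) f k x z ≤ DD (rho f g) f g x y + DD (rho g k) g k y z := by
  rcases x with p | a <;> rcases y with q | b <;> rcases z with r | c
  · simp only [DD]
    have h1 := ten_le_wt p
    have h2 := ten_le_wt q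
    have h3 := ten_le_wt r
    by_cases hpq : p = q
    · by_cases hqr : q = r
      · rw [if_pos hpq, if_pos hqr, if_pos (hpq.trans hqr)]; norm_num
      · rw [if_pos hpq, if_neg hqr, if_neg (fun e => hqr (hpq.symm.trans e)), hpq]; linarith
    · rw [if_neg hpq]
      by_cases hqr : q = r
      · rw [if_pos hqr, if_neg (fun e => hpq (e.trans hqr.symm)), hqr]; linarith
      · rw [if_neg hqr]
        split_ifs <;> linarith
  · simp only [DD]
    have h1 := ten_le_wt p
    have h2 := ten_le_wt q
    have h3 := pr_le_one k p c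
    have h4 := pr_nonneg k q c
    by_cases hpq : p = q
    · rw [if_pos hpq, hpq]; linarith
    · rw [if_neg hpq]; linarith
  · simp only [DD]
    have h1 := ten_le_wt p
    have h3 := ten_le_wt r
    have h4 := pr_nonneg g p b
    have h5 := pr_nonneg g r b
    split_ifs <;> linarith
  · simp only [DD]
    have h3 := pr_le_one k p c
    have h4 := pr_nonneg g p b
    have h5 := rho_nonneg g k (List.zip b c)
    by_cases hbc : b.length = c.length
    · rw [if_pos hbc]
      have := abs_pr_sub_pr g k p hbc
      rw [abs_le] at this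
      linarith [this.1]
    · rw [if_neg hbc]
      linarith
  · simp only [DD]
    have h1 := ten_le_wt q
    have h2 := ten_le_wt r
    have h3 := pr_le_one f r a
    have h4 := pr_nonneg f q a
    by_cases hqr : q = r
    · rw [if_pos hqr, hqr]; linarith
    · rw [if_neg hqr]; linarith
  · simp only [DD]
    have h1 := ten_le_wt q
    have h3 := pr_nonneg f q a
    have h4 := pr_nonneg k q c
    have h5 := rho_le_one f k (List.zip a c)
    split_ifs <;> linarith
  · simp only [DD]
    have h3 := pr_le_one f r a
    have h4 := pr_nonneg g r b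
    have h5 := rho_nonneg f g (List.zip a b)
    by_cases hab : a.length = b.length
    · rw [if_pos hab]
      have := abs_pr_sub_pr f g r hab
      rw [abs_le] at this
      linarith [this.2]
    · rw [if_neg hab]
      linarith
  · simp only [DD]
    exact dist_tri_tuple f g k a b c

theorem isPMet_DD (f : ℕ → ℕ → ℝ) : IsPMet (DD (rho f f) f f) :=
  ⟨DD_self f, DD_symm f f, DD_tri f f f⟩

private theorem dist_dense {f g : ℕ → ℕ → ℝ} (h : ∀ ε > 0, Corr f g ε []) (x : Z) (η : ℝ)
    (hη : 0 < η) : ∃ y, DD (rho f g) f g x y < η := by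
  rcases x with k | a
  · refine ⟨Sum.inl k, ?_⟩
    simp only [DD, if_true]
    exact hη
  · obtain ⟨R, hR1, hR2, hR3, -⟩ := h (η / 2) (by linarith)
    choose F hF using hR1
    refine ⟨Sum.inr (a.map F), ?_⟩
    simp only [DD]
    rw [if_pos (by rw [List.length_map])]
    have hc : Corr f g (η / 2) (List.zip a (a.map F)) := by
      refine ⟨R, fun x => ⟨F x, hF x⟩, hR2, hR3, ?_⟩
      intro p hp
      rw [List.mem_iff_getElem] at hp
      obtain ⟨i, hi, e⟩ := hp
      rw [List.getElem_zip, List.getElem_map] at e
      rw [← e]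
      exact hF _
    have := rho_le (by linarith : (0 : ℝ) ≤ η / 2) hc
    linarith

theorem glue_of_corr {f g : ℕ → ℕ → ℝ} (h : ∀ ε > 0, Corr f g ε []) :
    Glue (DD (rho f f) f f) (DD (rho g g) g g) (DD (rho f g) f g) where
  left x x' y := DD_tri f f g x x' y
  right x y y' := DD_tri f g g x y' y
  left' x x' y := by
    rw [DD_symm f g x' y]
    exact DD_tri f g f x y x'
  right' x y y' := by
    rw [DD_symm f g x y]
    exact DD_tri g f g y x y'
  dense x η hη := dist_dense h x η hη
  dense' y η hη := by
    have h' : ∀ ε > 0, Corr g f ε [] := fun ε hε => (h ε hε).swap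
    obtain ⟨x, hx⟩ := dist_dense h' y η hη
    refine ⟨x, ?_⟩
    rw [DD_symm f g x y]
    exact hx

end Pool.Agent.H82.GH
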