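import Pool.Agent.H82.GH.Defs

/-!
# GH-ISO: the completions are isometric iff there is a gluing

(→) `θ x y = dist (e ↑x) ↑y` in `Space g`.  All conditions follow from the triangle inequality,
`dist (e ↑x) (e ↑x') = f x x'`, density of `Pt g` in `Space g`, and density of the
image of `Pt f` under the homeomorphism `e`.
(←) Make `ℕ ⊕ ℕ` a pseudometric space `T` with `dist` given by `f`, `θ`, `g` (use a type synonym;
`θ ≥ 0` since `0 = f x x ≤ 2 θ x y`).  Let `C = UniformSpace.Completion T`.  The map
`Pt f → C`, `x ↦ ↑(inl x)` is an isometry, it extends to an isometry `Space f → C`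
(`UniformSpace.Completion.extension`, `Isometry.completion_extension`), whose range is closed
(complete) and dense (each `inr y` is a limit of points `inl x` by `dense'`), so it is a
surjective isometry, `Space f ≃ᵢ C`; the same for `g`.  (`IsometryEquiv.mk'` or
`Isometry.isometryEquivOnRange` / `Equiv.ofBijective`.)
-/

namespace Pool.Agent.H82.GH

namespace IsoAux

/-- the glued set -/
def GT {f g : Met} {θ : ℕ → ℕ → ℝ} (_h : Glue f.1 g.1 θ) : Type := ℕ ⊕ ℕ

/-- the glued distance -/
def gd (f g : Met) (θ : ℕ → ℕ → ℝ) : ℕ ⊕ ℕ → ℕ ⊕ ℕ → ℝ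
  | .inl x, .inl x' => f.1 x x'
  | .inl x, .inr y => θ x y
  | .inr y, .inl x => θ x y
  | .inr y, .inr y' => g.1 y y'

noncomputable instance {f g : Met} {θ : ℕ → ℕ → ℝ} (h : Glue f.1 g.1 θ) :
    PseudoMetricSpace (GT h) where
  dist x y := gd f g θ x y
  dist_self x := by
    rcases x with x | x
    · exact (f.2.zero_iff x x).2 rfl
    · exact (g.2.zero_iff x x).2 rfl
  dist_comm x y := by
    rcases x with x | x <;> rcases y with y | y
    · exact f.2.symm x y
    · rfl
    · rfl
    · exact g.2.symm x y
  dist_triangle x y z := by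
    rcases x with x | x <;> rcases y with y | y <;> rcases z with z | z
    · exact f.2.tri x y z
    · exact h.left x y z
    · exact h.left' x z y
    · exact h.right x z y
    · show θ z x ≤ θ y x + f.1 y z
      have := h.left z y x
      have h2 := f.2.symm y z
      linarith
    · exact h.right' y x z
    · show θ z x ≤ g.1 x y + θ z y
      have := h.right z x y
      have h2 := g.2.symm x y
      linarith
    · exact g.2.tri x y z

variable {f g : Met} {θ : ℕ → ℕ → ℝ}

/-- a natural number as a point of the glued space -/
def jL (h : Glue f.1 g.1 θ) (x : Pt f) : GT h := (Sum.inl x : ℕ ⊕ ℕ)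

/-- a natural number as a point of the glued space -/
def jR (h : Glue f.1 g.1 θ) (x : Pt g) : GT h := (Sum.inr x : ℕ ⊕ ℕ)

/-- the first space in the completion of the glued space -/
noncomputable def iL (h : Glue f.1 g.1 θ) : Pt f → UniformSpace.Completion (GT h) :=
  fun x => (jL h x : UniformSpace.Completion (GT h))

/-- the second space in the completion of the glued space -/
noncomputable def iR (h : Glue f.1 g.1 θ) : Pt g → UniformSpace.Completion (GT h) :=
  fun x => (jR h x : UniformSpace.Completion (GT h))

/-- a natural number as a point of the completion -/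
noncomputable def cp (f : Met) (x : ℕ) : Space f :=
  UniformSpace.Completion.coe' (show Pt f from x)

theorem dist_cp (f : Met) (x y : ℕ) : dist (cp f x) (cp f y) = f.1 x y :=
  UniformSpace.Completion.dist_eq (show Pt f from x) (show Pt f from y)

theorem dense_cp (f : Met) (z : Space f) (η : ℝ) (hη : 0 < η) : ∃ x, dist z (cp f x) < η :=
  Metric.denseRange_iff.1 (UniformSpace.Completion.denseRange_coe (α := Pt f)) z η hη

theorem iL_iso (h : Glue f.1 g.1 θ) : Isometry (iL h) := by
  apply Isometry.of_dist_eq
  intro x y
  exact UniformSpace.Completion.dist_eq _ _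

theorem iR_iso (h : Glue f.1 g.1 θ) : Isometry (iR h) := by
  apply Isometry.of_dist_eq
  intro x y
  exact UniformSpace.Completion.dist_eq _ _

theorem extend_surj {X Y : Type} [MetricSpace X] [MetricSpace Y] [CompleteSpace Y]
    (i : X → Y) (hi : Isometry i) (hd : DenseRange i) :
    Nonempty (UniformSpace.Completion X ≃ᵢ Y) := by
  have hF : Isometry (UniformSpace.Completion.extension i) := hi.completion_extension
  have hcl : IsClosed (Set.range (UniformSpace.Completion.extension i)) :=
    hF.isClosedEmbedding.isClosed_range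
  have hsub : Set.range i ⊆ Set.range (UniformSpace.Completion.extension i) := by
    rintro _ ⟨x, rfl⟩
    exact ⟨(x : UniformSpace.Completion X),
      UniformSpace.Completion.extension_coe hi.uniformContinuous x⟩
  have hsurj : Function.Surjective (UniformSpace.Completion.extension i) := by
    rw [← Set.range_eq_univ]
    have h1 : Dense (Set.range (UniformSpace.Completion.extension i)) := hd.mono hsub
    exact hcl.closure_eq.symm.trans h1.closure_eq
  exact ⟨⟨Equiv.ofBijective _ ⟨hF.injective, hsurj⟩, hF⟩⟩

theorem dense_of {T : Type} [PseudoMetricSpace T] {A : Type} (j : A → T)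
    (h : ∀ t : T, ∀ η : ℝ, 0 < η → ∃ a, dist t (j a) < η) :
    DenseRange fun a => ((j a : T) : UniformSpace.Completion T) := by
  have h1 : DenseRange j := by
    rw [Metric.denseRange_iff]
    intro t η hη
    obtain ⟨a, ha⟩ := h t η hη
    exact ⟨a, ha⟩
  exact UniformSpace.Completion.denseRange_coe.comp h1 (UniformSpace.Completion.continuous_coe T)

end IsoAux

open IsoAux in
theorem iso_iff_glue (f g : Met) :
    Nonempty (Space f ≃ᵢ Space g) ↔ ∃ θ : ℕ → ℕ → ℝ, Glue f.1 g.1 θ := by
  constructor
  · rintro ⟨e⟩
    have hff : ∀ x x' : ℕ, dist (e (cp f x)) (e (cp f x')) = f.1 x x' := by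
      intro x x'
      rw [e.dist_eq]
      exact dist_cp f x x'
    have hgg : ∀ y y' : ℕ, dist (cp g y) (cp g y') = g.1 y y' := by
      intro y y'
      exact dist_cp g y y'
    refine ⟨fun x y => dist (e (cp f x)) (cp g y), ?_, ?_, ?_, ?_, ?_,
      ?_⟩
    · intro x x' y
      have h1 := dist_triangle (e (cp f x)) (e (cp f x'))
        (cp g y)
      rw [hff] at h1
      exact h1
    · intro x y y'
      have h1 := dist_triangle (e (cp f x)) (cp g y')
        (cp g y)
      rw [hgg] at h1
      exact h1
    · intro x x' y
      have h1 := dist_triangle_right (e (cp f x)) (e (cp f x'))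
        (cp g y)
      rw [hff] at h1
      exact h1
    · intro x y y'
      have h1 := dist_triangle_left (cp g y) (cp g y')
        (e (cp f x))
      rw [hgg] at h1
      exact h1
    · intro x η hη
      obtain ⟨y, hy⟩ := dense_cp g (e (cp f x)) η hη
      exact ⟨y, hy⟩
    · intro y η hη
      obtain ⟨x, hx⟩ := dense_cp f (e.symm (cp g y)) η hη
      refine ⟨x, ?_⟩
      show dist (e (cp f x)) (cp g y) < η
      have h1 := e.dist_eq (e.symm (cp g y)) (cp f x)
      rw [e.apply_symm_apply] at h1
      rw [dist_comm, h1]
      exact hx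
  · rintro ⟨θ, h⟩
    have hL : DenseRange (iL h) := by
      apply dense_of (jL h)
      rintro (x | y) η hη
      · exact ⟨x, (dist_self (jL h x)).trans_lt hη⟩
      · obtain ⟨x, hx⟩ := h.dense' y η hη
        exact ⟨x, hx⟩
    have hR : DenseRange (iR h) := by
      apply dense_of (jR h)
      rintro (x | y) η hη
      · obtain ⟨y, hy⟩ := h.dense x η hη
        exact ⟨y, hy⟩
      · exact ⟨y, (dist_self (jR h y)).trans_lt hη⟩
    obtain ⟨e1⟩ := extend_surj (iL h) (iL_iso h) hL
    obtain ⟨e2⟩ := extend_surj (iR h) (iR_iso h) hR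
    exact ⟨e1.trans e2.symm⟩

end Pool.Agent.H82.GH
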