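import Pool.Agent.H82.GH.Bf

/-!
# GH-RANK: the back-and-forth relations `W`

* `W_iff`: unfolding (`rw [W]`).
* `W_anti`: immediate from the unfolding.  `W_mono`: by cases on the unfolding (no induction:
  `ε' ≥ ε` and `ε'' > ε'` implies `ε'' > ε`).  `W_right`: same.
* `W_of_corr`: induction on `α`, for `x` take `y` with `R x y` (the correspondence contains
  `(x, y) :: L` and has distortion `≤ ε ≤ ε'`).
* `corr_of_W`: let `V δ L := ∀ α < ω₁, W f g α δ L`.  Claim: `V δ L`, `δ < δ'`, `x` give `y`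
  with `V δ' ((x, y) :: L)`.  Otherwise choose for each `y` some `α y < ω₁` with
  `¬ W (α y) δ' ((x, y) :: L)`; `β = sup α y < ω₁` (countable sup: `Ordinal.iSup_lt_omega_one`-like
  lemma, cofinality of `ω₁`), apply `W (β + 1) δ L` to get `y` with `W β δ' ((x, y) :: L)`,
  contradiction by `W_anti`.  Now use `corr_of_bf` with `S L := ∃ δ < ε', V δ L` (increase `δ`
  to `(δ + ε')/2` in each step).
* `W_of_mem_Rk`: `f ∈ Rk α`, `W α ε L`.  Show `∀ β ε L, W α ε L → W β ε L` by strong induction on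
  `β`: first clause from `W α`; second: `W (α + 1) ε L` gives, for `ε' > ε` and `x`, some `y` with
  `W α ε' ((x, y) :: L)`, hence `W γ ε' ((x, y) :: L)` for `γ < β` by induction.
* `exists_Rk`: for each `L` and rational `q` let `β(L, q) < ω₁` be such that
  `W (β(L,q)) q L → ∀ β < ω₁, W β q L` (if the conclusion fails take a counterexample `β`).
  `α = sup β(L, q) < ω₁` (countably many).  If `W α ε L` then for all rational `q > ε`,
  `W α q L`, so `W (α + 1) q L`; conclude with `W_right` (squeeze a rational between).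
* `rho_eq_rhoW`: the two sets in the `sInf` have the same infimum:
  `Corr ε L → W α ε L` and `W α ε L → ∀ ε' > ε, Corr ε' L` (`le_antisymm`,
  `le_csInf`/`csInf_le`).
-/

namespace Pool.Agent.H82.GH

open scoped Ordinal
open Set

theorem W_iff {f g : ℕ → ℕ → ℝ} {α : Ordinal.{0}} {ε : ℝ} {L : List (ℕ × ℕ)} :
    W f g α ε L ↔ (∀ p ∈ L, ∀ q ∈ L, |f p.1 q.1 - g p.2 q.2| ≤ ε) ∧
      ∀ β < α, ∀ ε' > ε,
        (∀ x, ∃ y, W f g β ε' ((x, y) :: L)) ∧ (∀ y, ∃ x, W f g β ε' ((x, y) :: L)) := by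
  rw [W]

theorem W_anti {f g : ℕ → ℕ → ℝ} {α β : Ordinal.{0}} {ε : ℝ} {L : List (ℕ × ℕ)} (h : α ≤ β)
    (hW : W f g β ε L) : W f g α ε L := by
  rw [W_iff] at hW ⊢
  exact ⟨hW.1, fun γ hγ => hW.2 γ (lt_of_lt_of_le hγ h)⟩

theorem W_mono {f g : ℕ → ℕ → ℝ} {α : Ordinal.{0}} {ε ε' : ℝ} {L : List (ℕ × ℕ)} (h : ε ≤ ε')
    (hW : W f g α ε L) : W f g α ε' L := by
  rw [W_iff] at hW ⊢
  exact ⟨fun p hp q hq => (hW.1 p hp q hq).trans h,
    fun β hβ ε'' h'' => hW.2 β hβ ε'' (lt_of_le_of_lt h h'')⟩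

theorem W_right {f g : ℕ → ℕ → ℝ} {α : Ordinal.{0}} {ε : ℝ} {L : List (ℕ × ℕ)}
    (hW : ∀ ε' > ε, W f g α ε' L) : W f g α ε L := by
  rw [W_iff]
  refine ⟨fun p hp q hq => ?_, fun β hβ ε'' h'' => ?_⟩
  · refine le_of_forall_gt_imp_ge_of_dense (fun c hc => ?_)
    exact (W_iff.1 (hW c hc)).1 p hp q hq
  · obtain ⟨m, hm1, hm2⟩ := exists_between h''
    exact (W_iff.1 (hW m hm1)).2 β hβ ε'' hm2

theorem W_of_corr {f g : ℕ → ℕ → ℝ} {ε : ℝ} {L : List (ℕ × ℕ)} (h : Corr f g ε L)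
    (α : Ordinal.{0}) : W f g α ε L := by
  induction α using WellFoundedLT.induction generalizing ε L with
  | _ α ih =>
    obtain ⟨R, hx, hy, hR, hL⟩ := h
    rw [W_iff]
    refine ⟨fun p hp q hq => hR _ _ _ _ (hL p hp) (hL q hq),
      fun β hβ ε' hε' => ⟨fun x => ?_, fun y => ?_⟩⟩
    · obtain ⟨y, hxy⟩ := hx x
      refine ⟨y, ih β hβ ⟨R, hx, hy,
        fun x y x' y' h h' => (hR x y x' y' h h').trans (le_of_lt hε'), fun p hp => ?_⟩⟩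
      rcases List.mem_cons.1 hp with rfl | hp
      · exact hxy
      · exact hL p hp
    · obtain ⟨x, hxy⟩ := hy y
      refine ⟨x, ih β hβ ⟨R, hx, hy,
        fun x y x' y' h h' => (hR x y x' y' h h').trans (le_of_lt hε'), fun p hp => ?_⟩⟩
      rcases List.mem_cons.1 hp with rfl | hp
      · exact hxy
      · exact hL p hp

theorem add_one_lt_omega_one {α : Ordinal.{0}} (h : α < ω₁) : α + 1 < ω₁ := by
  have h1 : Order.IsSuccLimit (ω₁ : Ordinal.{0}) := Cardinal.isSuccLimit_omega 1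
  exact h1.succ_lt h

theorem W_ext_left {f g : ℕ → ℕ → ℝ} {ε ε' : ℝ} {L : List (ℕ × ℕ)}
    (h : ∀ α < ω₁, W f g α ε L) (hε : ε < ε') (x : ℕ) :
    ∃ y, ∀ α < ω₁, W f g α ε' ((x, y) :: L) := by
  by_contra hcon
  push Not at hcon
  choose a ha hna using hcon
  have hsup : ⨆ y, a y < ω₁ := Ordinal.iSup_lt_omega_one ha
  obtain ⟨y, hy⟩ := ((W_iff.1 (h _ (add_one_lt_omega_one hsup))).2 (⨆ y, a y)
    (Order.lt_succ _) ε' hε).1 x
  exact hna y (W_anti (Ordinal.le_iSup a y) hy)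

theorem W_ext_right {f g : ℕ → ℕ → ℝ} {ε ε' : ℝ} {L : List (ℕ × ℕ)}
    (h : ∀ α < ω₁, W f g α ε L) (hε : ε < ε') (y : ℕ) :
    ∃ x, ∀ α < ω₁, W f g α ε' ((x, y) :: L) := by
  by_contra hcon
  push Not at hcon
  choose a ha hna using hcon
  have hsup : ⨆ x, a x < ω₁ := Ordinal.iSup_lt_omega_one ha
  obtain ⟨x, hx⟩ := ((W_iff.1 (h _ (add_one_lt_omega_one hsup))).2 (⨆ x, a x)
    (Order.lt_succ _) ε' hε).2 y
  exact hna x (W_anti (Ordinal.le_iSup a x) hx)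

theorem corr_of_W {f g : ℕ → ℕ → ℝ} {ε ε' : ℝ} {L : List (ℕ × ℕ)} (h : ∀ α < ω₁, W f g α ε L)
    (hε : ε < ε') : Corr f g ε' L := by
  refine corr_of_bf (fun L => ∃ δ < ε', ∀ α < ω₁, W f g α δ L) ?_ ?_ ?_ ⟨ε, hε, h⟩
  · rintro L ⟨δ, hδ, hV⟩ x
    obtain ⟨m, hm1, hm2⟩ := exists_between hδ
    obtain ⟨y, hy⟩ := W_ext_left hV hm1 x
    exact ⟨y, m, hm2, hy⟩
  · rintro L ⟨δ, hδ, hV⟩ y
    obtain ⟨m, hm1, hm2⟩ := exists_between hδ
    obtain ⟨x, hx⟩ := W_ext_right hV hm1 y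
    exact ⟨x, m, hm2, hx⟩
  · rintro L ⟨δ, hδ, hV⟩ p hp q hq
    have h0 : (0 : Ordinal.{0}) < ω₁ := Ordinal.omega_pos 1
    exact ((W_iff.1 (hV 0 h0)).1 p hp q hq).trans hδ.le

theorem W_of_mem_Rk {f : Met} {α : Ordinal.{0}} (hf : f ∈ Rk α) {ε : ℝ} {L : List (ℕ × ℕ)}
    (h : W f.1 f.1 α ε L) (β : Ordinal.{0}) : W f.1 f.1 β ε L := by
  induction β using WellFoundedLT.induction generalizing ε L with
  | _ β ih =>
    have h1 := W_iff.1 (hf L ε h)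
    rw [W_iff]
    refine ⟨h1.1, fun γ hγ ε' hε' => ⟨fun x => ?_, fun y => ?_⟩⟩
    · obtain ⟨y, hy⟩ := (h1.2 α (Order.lt_succ α) ε' hε').1 x
      exact ⟨y, ih γ hγ hy⟩
    · obtain ⟨x, hx⟩ := (h1.2 α (Order.lt_succ α) ε' hε').2 y
      exact ⟨x, ih γ hγ hx⟩

theorem Rk_mono : Monotone Rk := by
  intro α β h f hf L ε hW
  exact W_of_mem_Rk hf (W_anti h hW) _

theorem exists_Rk (f : Met) : ∃ α < ω₁, f ∈ Rk α := by
  have key : ∀ p : List (ℕ × ℕ) × ℚ, ∃ β < ω₁,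
      (W f.1 f.1 β (p.2 : ℝ) p.1 → ∀ γ < ω₁, W f.1 f.1 γ (p.2 : ℝ) p.1) := by
    intro p
    by_cases h : ∀ γ < ω₁, W f.1 f.1 γ (p.2 : ℝ) p.1
    · exact ⟨0, Ordinal.omega_pos 1, fun _ => h⟩
    · push Not at h
      obtain ⟨γ, hγ, hn⟩ := h
      exact ⟨γ, hγ, fun hh => absurd hh hn⟩
  choose b hb hb' using key
  have hsup : ⨆ p, b p < ω₁ := Ordinal.iSup_lt_omega_one hb
  refine ⟨⨆ p, b p, hsup, fun L ε hW => W_right fun ε' hε' => ?_⟩
  obtain ⟨q, hq1, hq2⟩ := exists_rat_btwn hε'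
  refine W_mono hq2.le (hb' (L, q) ?_ _ (add_one_lt_omega_one hsup))
  exact W_anti (Ordinal.le_iSup b (L, q)) (W_mono hq1.le hW)

theorem rho_eq_rhoW {f : Met} {α : Ordinal.{0}} (hf : f ∈ Rk α) (L : List (ℕ × ℕ)) :
    rho f.1 f.1 L = rhoW α f.1 f.1 L := by
  unfold rho rhoW
  have hb1 : BddBelow {ε : ℝ | 0 ≤ ε ∧ (1 ≤ ε ∨ Corr f.1 f.1 ε L)} := ⟨0, fun _ h => h.1⟩
  have hb2 : BddBelow {ε : ℝ | 0 ≤ ε ∧ (1 ≤ ε ∨ W f.1 f.1 α ε L)} := ⟨0, fun _ h => h.1⟩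
  apply le_antisymm
  · refine le_csInf ⟨1, zero_le_one, Or.inl le_rfl⟩ ?_
    rintro ε ⟨h0, h1⟩
    refine le_of_forall_gt_imp_ge_of_dense (fun c hc => ?_)
    refine csInf_le hb1 ⟨h0.trans (le_of_lt hc), ?_⟩
    rcases h1 with h1 | h1
    · exact Or.inl (h1.trans (le_of_lt hc))
    · exact Or.inr (corr_of_W (fun β _ => W_of_mem_Rk hf h1 β) hc)
  · refine le_csInf ⟨1, zero_le_one, Or.inl le_rfl⟩ ?_
    rintro ε ⟨h0, h1⟩
    refine csInf_le hb2 ⟨h0, ?_⟩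
    rcases h1 with h1 | h1
    · exact Or.inl h1
    · exact Or.inr (W_of_corr h1 α)

end Pool.Agent.H82.GH
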