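import Pool.Agent.H82.GH.Rank

/-!
# GH-RANKINV: the rank is invariant

* `W_comp`: induction on `α`: for `ε'' > ε + δ` let `e = (ε'' - ε - δ)/2`; given `x` take `y` with
  `W f g β (ε + e) ((x, y) :: L1)` and `z` with `W g k β (δ + e) ((y, z) :: L2)`; the pair `(x, z)`
  is covered by `y`.  Symmetric for `z`.
* `W_swap`: induction on `α`.
* `Rk_inv`: let `W g g α ε L`.  For `η > 0` take a correspondence `R` of distortion `≤ η` and choose
  for each `y` some `F y` with `R (F y) y`.  Let `L' = L.map (fun p => (F p.1, F p.2))`,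
  `L1 = L.map (fun p => (F p.1, p.1))`, `L2 = L.map (fun p => (F p.2, p.2))`.
  `W f g _ η L1`, `W f g _ η L2` for all ranks (`W_of_corr`).  So `W f f α (2η + ε) L'`
  (compose `f → g` by `L1`, `g → g` by `L`, `g → f` by the swapped `L2`; the covering condition
  holds index by index).  Then `W f f (α+1) (2η + ε) L'` as `f ∈ Rk α`, and composing back
  `W g g (α+1) (4η + ε) L`.  `W_right`.
-/

namespace Pool.Agent.H82.GH

open scoped Ordinal
open Set

theorem W_comp {f g k : ℕ → ℕ → ℝ} {α : Ordinal.{0}} {ε δ : ℝ} {L1 L2 L3 : List (ℕ × ℕ)}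
    (h1 : W f g α ε L1) (h2 : W g k α δ L2)
    (h : ∀ p ∈ L3, ∃ y, (p.1, y) ∈ L1 ∧ (y, p.2) ∈ L2) : W f k α (ε + δ) L3 := by
  induction α using WellFoundedLT.induction generalizing ε δ L1 L2 L3 with
  | ind α ih =>
    rw [W_iff] at h1 h2 ⊢
    refine ⟨?_, ?_⟩
    · intro p hp q hq
      obtain ⟨y, hy1, hy2⟩ := h p hp
      obtain ⟨z, hz1, hz2⟩ := h q hq
      have e1 := h1.1 _ hy1 _ hz1
      have e2 := h2.1 _ hy2 _ hz2
      calc |f p.1 q.1 - k p.2 q.2| = |(f p.1 q.1 - g y z) + (g y z - k p.2 q.2)| := by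
            congr 1; ring
        _ ≤ |f p.1 q.1 - g y z| + |g y z - k p.2 q.2| := abs_add_le _ _
        _ ≤ ε + δ := add_le_add e1 e2
    · intro β hβ ε'' hε
      have he : 0 < (ε'' - ε - δ) / 2 := by linarith
      have h1' := h1.2 β hβ (ε + (ε'' - ε - δ) / 2) (by linarith)
      have h2' := h2.2 β hβ (δ + (ε'' - ε - δ) / 2) (by linarith)
      have hsum : ε + (ε'' - ε - δ) / 2 + (δ + (ε'' - ε - δ) / 2) = ε'' := by ring
      have hcov : ∀ x y z : ℕ, ∀ p ∈ (x, z) :: L3, ∃ y', (p.1, y') ∈ (x, y) :: L1 ∧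
          (y', p.2) ∈ (y, z) :: L2 := by
        intro x y z p hp
        rcases List.mem_cons.mp hp with rfl | hp
        · exact ⟨y, List.mem_cons_self, List.mem_cons_self⟩
        · obtain ⟨y', hy1, hy2⟩ := h p hp
          exact ⟨y', List.mem_cons_of_mem _ hy1, List.mem_cons_of_mem _ hy2⟩
      refine ⟨?_, ?_⟩
      · intro x
        obtain ⟨y, hy⟩ := h1'.1 x
        obtain ⟨z, hz⟩ := h2'.1 y
        refine ⟨z, ?_⟩
        have := ih β hβ hy hz (hcov x y z)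
        rwa [hsum] at this
      · intro z
        obtain ⟨y, hy⟩ := h2'.2 z
        obtain ⟨x, hx⟩ := h1'.2 y
        refine ⟨x, ?_⟩
        have := ih β hβ hx hy (hcov x y z)
        rwa [hsum] at this

theorem W_swap {f g : ℕ → ℕ → ℝ} {α : Ordinal.{0}} {ε : ℝ} {L : List (ℕ × ℕ)}
    (h : W f g α ε L) : W g f α ε (L.map Prod.swap) := by
  induction α using WellFoundedLT.induction generalizing ε L with
  | ind α ih =>
    rw [W_iff] at h ⊢
    refine ⟨?_, ?_⟩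
    · intro p hp q hq
      obtain ⟨p', hp', rfl⟩ := List.mem_map.mp hp
      obtain ⟨q', hq', rfl⟩ := List.mem_map.mp hq
      have := h.1 _ hp' _ hq'
      rw [abs_sub_comm] at this
      exact this
    · intro β hβ ε' hε
      have h' := h.2 β hβ ε' hε
      refine ⟨?_, ?_⟩
      · intro x
        obtain ⟨y, hy⟩ := h'.2 x
        exact ⟨y, ih β hβ hy⟩
      · intro y
        obtain ⟨x, hx⟩ := h'.1 y
        exact ⟨x, ih β hβ hx⟩

theorem Rk_inv {f g : Met} {α : Ordinal.{0}} (h : ∀ ε > 0, Corr f.1 g.1 ε []) (hf : f ∈ Rk α) :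
    g ∈ Rk α := by
  intro L ε hW
  refine W_right fun ε' hε => ?_
  have hη : 0 < (ε' - ε) / 4 := by linarith
  set η : ℝ := (ε' - ε) / 4 with hηdef
  obtain ⟨R, hR1, hR2, hR3, -⟩ := h η hη
  choose F hF using hR2
  have hc1 : Corr f.1 g.1 η (L.map fun p => (F p.1, p.1)) := by
    refine ⟨R, hR1, fun y => ⟨F y, hF y⟩, hR3, ?_⟩
    intro p hp
    obtain ⟨q, -, rfl⟩ := List.mem_map.mp hp
    exact hF _
  have hc2 : Corr f.1 g.1 η (L.map fun p => (F p.2, p.2)) := by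
    refine ⟨R, hR1, fun y => ⟨F y, hF y⟩, hR3, ?_⟩
    intro p hp
    obtain ⟨q, -, rfl⟩ := List.mem_map.mp hp
    exact hF _
  have s1 : W f.1 g.1 α (η + ε) (L.map fun p => (F p.1, p.2)) := by
    refine W_comp (W_of_corr hc1 α) hW ?_
    intro p hp
    obtain ⟨q, hq, rfl⟩ := List.mem_map.mp hp
    exact ⟨q.1, List.mem_map.mpr ⟨q, hq, rfl⟩, hq⟩
  have s2 : W f.1 f.1 α (η + ε + η) (L.map fun p => (F p.1, F p.2)) := by
    refine W_comp s1 (W_swap (W_of_corr hc2 α)) ?_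
    intro p hp
    obtain ⟨q, hq, rfl⟩ := List.mem_map.mp hp
    exact ⟨q.2, List.mem_map.mpr ⟨q, hq, rfl⟩,
      List.mem_map.mpr ⟨(F q.2, q.2), List.mem_map.mpr ⟨q, hq, rfl⟩, rfl⟩⟩
  have s3 : W f.1 f.1 (α + 1) (η + ε + η) (L.map fun p => (F p.1, F p.2)) := hf _ _ s2
  have s4 : W g.1 f.1 (α + 1) (η + (η + ε + η)) (L.map fun p => (p.1, F p.2)) := by
    refine W_comp (W_swap (W_of_corr hc1 (α + 1))) s3 ?_
    intro p hp
    obtain ⟨q, hq, rfl⟩ := List.mem_map.mp hp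
    exact ⟨F q.1, List.mem_map.mpr ⟨(F q.1, q.1), List.mem_map.mpr ⟨q, hq, rfl⟩, rfl⟩,
      List.mem_map.mpr ⟨q, hq, rfl⟩⟩
  have s5 : W g.1 g.1 (α + 1) (η + (η + ε + η) + η) L := by
    refine W_comp s4 (W_of_corr hc2 (α + 1)) ?_
    intro q hq
    exact ⟨F q.2, List.mem_map.mpr ⟨q, hq, rfl⟩, List.mem_map.mpr ⟨q, hq, rfl⟩⟩
  have hsum : η + (η + ε + η) + η = ε' := by rw [hηdef]; ring
  rwa [hsum] at s5

end Pool.Agent.H82.GH
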