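import Pool.Agent.H82.GH.Rank

/-!
# GH-RANKMEAS: the back-and-forth relations of countable rank are Borel

* `measurableSet_W`: strong induction on `α` (for all `ε`, `L`), by `W_iff`: the first clause is a
  finite intersection; the second clause is equivalent to the same clause for `ε' = ε + 1/(m+1)`,
  `m : ℕ`, only (by `W_mono`), a countable intersection over `β < α` (`Set.Iio α` is countable for
  `α < ω₁`, `Ordinal` API: `Ordinal.countable_Iio_iff_lt_omega_one` or similar), `m`, `x` of countable unions over `y`.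
* `measurable_rhoW`: `{f | rhoW < r}` is a countable union over rational `q < r`, `0 ≤ q`, of
  `{f | W q L}` or trivial for `r > 1`.
* `measurableSet_Rk`: `f ∈ Rk α` iff for all `L` (countable) and rationals `q < q'`:
  `W α q L → W (α + 1) q' L` (by `W_mono`, `W_right`).
-/

namespace Pool.Agent.H82.GH

open scoped Ordinal
open MeasureTheory Set

theorem rankmeas_countable_Iio {α : Ordinal.{0}} (hα : α < ω₁) : Countable (Iio α) := by
  rw [← Cardinal.mk_le_aleph0_iff, Cardinal.mk_Iio_ordinal, ← Cardinal.lift_aleph0.{1, 0},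
    Cardinal.lift_le, ← Order.lt_succ_iff, Cardinal.succ_aleph0]
  have h : (ω₁ : Ordinal.{0}) = (Cardinal.aleph 1).ord := (Cardinal.ord_aleph 1).symm
  rw [h, Cardinal.lt_ord] at hα
  exact hα

theorem rankmeas_eval (x y : ℕ) : Measurable fun f : Met => f.1 x y :=
  (measurable_pi_apply y).comp ((measurable_pi_apply x).comp measurable_subtype_coe)

theorem rankmeas_first (ε : ℝ) (L : List (ℕ × ℕ)) :
    MeasurableSet {f : Met | ∀ p ∈ L, ∀ q ∈ L, |f.1 p.1 q.1 - f.1 p.2 q.2| ≤ ε} := by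
  refine measurableSet_setOfPred.2 (Measurable.forall fun p => Measurable.imp measurable_const
    (Measurable.forall fun q => Measurable.imp measurable_const ?_))
  refine measurableSet_setOfPred.1 (measurableSet_le ?_ measurable_const)
  exact measurable_norm.comp ((rankmeas_eval p.1 q.1).sub (rankmeas_eval p.2 q.2))

theorem rankmeas_iff (f : Met) (α : Ordinal.{0}) (ε : ℝ) (L : List (ℕ × ℕ)) :
    W f.1 f.1 α ε L ↔ (∀ p ∈ L, ∀ q ∈ L, |f.1 p.1 q.1 - f.1 p.2 q.2| ≤ ε) ∧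
      ∀ (β : Iio α) (m : ℕ),
        (∀ x, ∃ y, W f.1 f.1 β.1 (ε + 1 / ((m : ℝ) + 1)) ((x, y) :: L)) ∧
          (∀ y, ∃ x, W f.1 f.1 β.1 (ε + 1 / ((m : ℝ) + 1)) ((x, y) :: L)) := by
  rw [W_iff]
  refine and_congr_right fun _ => ⟨fun h β m => h β.1 β.2 _ ?_, fun h β hβ ε' hε' => ?_⟩
  · have : (0 : ℝ) < 1 / ((m : ℝ) + 1) := Nat.one_div_pos_of_nat
    linarith
  · obtain ⟨m, hm⟩ := exists_nat_one_div_lt (sub_pos.2 hε')
    have hm' : ε + 1 / ((m : ℝ) + 1) ≤ ε' := by linarith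
    obtain ⟨h1, h2⟩ := h ⟨β, hβ⟩ m
    refine ⟨fun x => ?_, fun y => ?_⟩
    · obtain ⟨y, hy⟩ := h1 x
      exact ⟨y, W_mono hm' hy⟩
    · obtain ⟨x, hx⟩ := h2 y
      exact ⟨x, W_mono hm' hx⟩

theorem measurableSet_W {α : Ordinal.{0}} (hα : α < ω₁) (ε : ℝ) (L : List (ℕ × ℕ)) :
    MeasurableSet {f : Met | W f.1 f.1 α ε L} := by
  induction α using WellFoundedLT.induction generalizing ε L with
  | _ α ih =>
    have hc : Countable (Iio α) := rankmeas_countable_Iio hα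
    have he : {f : Met | W f.1 f.1 α ε L} =
        {f : Met | ∀ p ∈ L, ∀ q ∈ L, |f.1 p.1 q.1 - f.1 p.2 q.2| ≤ ε} ∩
          {f : Met | ∀ (β : Iio α) (m : ℕ),
            (∀ x, ∃ y, W f.1 f.1 β.1 (ε + 1 / ((m : ℝ) + 1)) ((x, y) :: L)) ∧
              (∀ y, ∃ x, W f.1 f.1 β.1 (ε + 1 / ((m : ℝ) + 1)) ((x, y) :: L))} := by
      ext f
      exact rankmeas_iff f α ε L
    rw [he]
    refine (rankmeas_first ε L).inter (measurableSet_setOfPred.2
      (Measurable.forall fun β => Measurable.forall fun m => ?_))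
    have hβ : β.1 < ω₁ := lt_trans β.2 hα
    refine Measurable.and (Measurable.forall fun x => Measurable.exists fun y => ?_)
      (Measurable.forall fun y => Measurable.exists fun x => ?_)
    · exact measurableSet_setOfPred.1 (ih β.1 β.2 hβ _ _)
    · exact measurableSet_setOfPred.1 (ih β.1 β.2 hβ _ _)

theorem rankmeas_rhoW_lt (f : Met) (α : Ordinal.{0}) (L : List (ℕ × ℕ)) {r : ℝ} (hr : r ≤ 1) :
    rhoW α f.1 f.1 L < r ↔ ∃ q : ℚ, (0 ≤ (q : ℝ) ∧ (q : ℝ) < r) ∧ W f.1 f.1 α q L := by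
  have hb : BddBelow {ε : ℝ | 0 ≤ ε ∧ (1 ≤ ε ∨ W f.1 f.1 α ε L)} := ⟨0, fun _ h => h.1⟩
  unfold rhoW
  constructor
  · intro h
    obtain ⟨ε, ⟨h0, h1⟩, h2⟩ := exists_lt_of_csInf_lt
      (⟨1, zero_le_one, Or.inl le_rfl⟩ :
        ({ε : ℝ | 0 ≤ ε ∧ (1 ≤ ε ∨ W f.1 f.1 α ε L)}).Nonempty) h
    obtain ⟨q, hq1, hq2⟩ := exists_rat_btwn h2
    refine ⟨q, ⟨h0.trans hq1.le, hq2⟩, ?_⟩
    rcases h1 with h1 | h1
    · exact absurd (h2.trans_le hr) (not_lt.2 h1)
    · exact W_mono hq1.le h1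
  · rintro ⟨q, ⟨h0, h1⟩, h2⟩
    exact lt_of_le_of_lt (csInf_le hb ⟨h0, Or.inr h2⟩) h1

theorem measurable_rhoW {α : Ordinal.{0}} (hα : α < ω₁) (L : List (ℕ × ℕ)) :
    Measurable fun f : Met => rhoW α f.1 f.1 L := by
  refine measurable_of_Iio fun r => ?_
  by_cases hr : r ≤ 1
  · have : (fun f : Met => rhoW α f.1 f.1 L) ⁻¹' Iio r =
        {f : Met | ∃ q : ℚ, (0 ≤ (q : ℝ) ∧ (q : ℝ) < r) ∧ W f.1 f.1 α q L} := by
      ext f
      exact rankmeas_rhoW_lt f α L hr
    rw [this]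
    refine measurableSet_setOfPred.2 (Measurable.exists fun q => Measurable.and measurable_const ?_)
    exact measurableSet_setOfPred.1 (measurableSet_W hα _ _)
  · have : (fun f : Met => rhoW α f.1 f.1 L) ⁻¹' Iio r = univ := by
      refine eq_univ_of_forall fun f => ?_
      have hb : BddBelow {ε : ℝ | 0 ≤ ε ∧ (1 ≤ ε ∨ W f.1 f.1 α ε L)} := ⟨0, fun _ h => h.1⟩
      have h1 : rhoW α f.1 f.1 L ≤ 1 := csInf_le hb ⟨zero_le_one, Or.inl le_rfl⟩
      exact lt_of_le_of_lt h1 (not_le.1 hr)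
    rw [this]
    exact MeasurableSet.univ

theorem rankmeas_mem_Rk (f : Met) (α : Ordinal.{0}) :
    f ∈ Rk α ↔ ∀ (L : List (ℕ × ℕ)) (q q' : ℚ), q < q' →
      W f.1 f.1 α q L → W f.1 f.1 (α + 1) q' L := by
  constructor
  · intro h L q q' hq hW
    exact W_mono (by exact_mod_cast hq.le) (h L q hW)
  · intro h L ε hW
    refine W_right fun ε' hε' => ?_
    obtain ⟨q', h1, h2⟩ := exists_rat_btwn hε'
    obtain ⟨q, h3, h4⟩ := exists_rat_btwn h1
    exact W_mono h2.le (h L q q' (by exact_mod_cast h4) (W_mono h3.le hW))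

theorem measurableSet_Rk {α : Ordinal.{0}} (hα : α < ω₁) : MeasurableSet (Rk α) := by
  have : Rk α = {f : Met | ∀ (L : List (ℕ × ℕ)) (q q' : ℚ), q < q' →
      W f.1 f.1 α q L → W f.1 f.1 (α + 1) q' L} := by
    ext f
    exact rankmeas_mem_Rk f α
  rw [this]
  refine measurableSet_setOfPred.2 (Measurable.forall fun L => Measurable.forall fun q =>
    Measurable.forall fun q' => Measurable.imp measurable_const (Measurable.imp ?_ ?_))
  · exact measurableSet_setOfPred.1 (measurableSet_W hα _ _)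
  · exact measurableSet_setOfPred.1 (measurableSet_W (add_one_lt_omega_one hα) _ _)

end Pool.Agent.H82.GH
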