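import Pool.Agent.H82.GH.Defs

/-!
# GH-REMEAS: measurability of `DD` and `reenum` in a parameter

* `measurable_DD`: case distinction on the two points; `pr` is a measurable function of the values
  of `f` (`clamp` is continuous).
* `measurable_reenum`: `ω ↦ nth (Kept (D ω)) i` is measurable into `ℕ` (discrete):
  `{ω | Kept (D ω) n}` is measurable (finite intersection), and
  `nth p i = n ↔ p n ∧ count p n = i` for infinite `p`, where `Nat.count` (classical decidability)
  is measurable in `ω` by induction on `n` (`Nat.count_succ`).  Then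
  `{ω | reenum (D ω) i j ∈ B} = ⋃ m n, {nth i = m} ∩ {nth j = n} ∩ {D ω (enumZ m) (enumZ n) ∈ B}`
  (or `measurable_from_prod_countable_right`-like composition).
-/

namespace Pool.Agent.H82.GH

open MeasureTheory Set

theorem continuous_clamp : Continuous clamp := by
  unfold clamp
  fun_prop

theorem measurable_pr {Ω : Type} [MeasurableSpace Ω] {f : Ω → ℕ → ℕ → ℝ}
    (hf : ∀ x y, Measurable fun ω => f ω x y) (k : Mk) (a : List ℕ) :
    Measurable fun ω => pr (f ω) k a := by
  unfold pr
  by_cases h : a.length = k.1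
  · simp only [h, if_true]
    by_cases h2 : k.2.1 < k.1 ∧ k.2.2.1 < k.1
    · simp only [h2, if_true, and_self]
      have h3 : Measurable fun ω => clamp (f ω (a.getD k.2.1 0) (a.getD k.2.2.1 0)
          - (k.2.2.2 : ℝ)) :=
        continuous_clamp.measurable.comp ((hf _ _).sub_const _)
      exact (h3.const_add 1).div_const 2
    · simp only [h2, if_false]
      exact measurable_const
  · simp only [h, if_false]
    exact measurable_const

theorem measurable_DD {Ω : Type} [MeasurableSpace Ω] {ρ : Ω → List (ℕ × ℕ) → ℝ}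
    {f : Ω → ℕ → ℕ → ℝ} (hρ : ∀ L, Measurable fun ω => ρ ω L)
    (hf : ∀ x y, Measurable fun ω => f ω x y) (x y : Z) :
    Measurable fun ω => DD (ρ ω) (f ω) (f ω) x y := by
  rcases x with k | a <;> rcases y with l | b
  · simp only [DD]
    exact measurable_const
  · simp only [DD]
    exact (measurable_pr hf k b).const_add _
  · simp only [DD]
    exact (measurable_pr hf l a).const_add _
  · simp only [DD]
    exact (hρ _).const_add _

theorem measurableSet_kept {Ω : Type} [MeasurableSpace Ω] {D : Ω → Z → Z → ℝ}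
    (hD : ∀ x y, Measurable fun ω => D ω x y) (n : ℕ) :
    MeasurableSet {ω | Kept (D ω) n} := by
  have : {ω | Kept (D ω) n} = ⋂ m : ℕ, ⋂ _ : m < n, {ω | D ω (enumZ m) (enumZ n) = 0}ᶜ := by
    ext ω
    simp [Kept]
  rw [this]
  refine MeasurableSet.iInter fun m => MeasurableSet.iInter fun _ => MeasurableSet.compl ?_
  exact (hD _ _) (measurableSet_singleton 0)

open Classical in
theorem measurableSet_count {Ω : Type} [MeasurableSpace Ω] {p : Ω → ℕ → Prop}
    (hp : ∀ n, MeasurableSet {ω | p ω n}) (n : ℕ) :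
    ∀ i, MeasurableSet {ω | Nat.count (p ω) n = i} := by
  induction n with
  | zero =>
    intro i
    simp only [Nat.count_zero]
    exact MeasurableSet.const _
  | succ n ih =>
    intro i
    have : {ω | Nat.count (p ω) (n + 1) = i} =
        ({ω | p ω n} ∩ ⋃ j : ℕ, ⋃ _ : j + 1 = i, {ω | Nat.count (p ω) n = j}) ∪
        ({ω | p ω n}ᶜ ∩ {ω | Nat.count (p ω) n = i}) := by
      ext ω
      simp only [mem_setOf_eq, Nat.count_succ, mem_union, mem_inter_iff, mem_compl_iff,
        mem_iUnion]
      by_cases h : p ω n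
      · simp [h]
      · simp [h]
    rw [this]
    refine MeasurableSet.union (MeasurableSet.inter (hp n) ?_) ((hp n).compl.inter (ih i))
    exact MeasurableSet.iUnion fun j => MeasurableSet.iUnion fun _ => ih j

theorem measurableSet_nth {Ω : Type} [MeasurableSpace Ω] {p : Ω → ℕ → Prop}
    (hp : ∀ n, MeasurableSet {ω | p ω n}) (hinf : ∀ ω, {n | p ω n}.Infinite) (i n : ℕ) :
    MeasurableSet {ω | Nat.nth (p ω) i = n} := by
  classical
  have : {ω | Nat.nth (p ω) i = n} = {ω | p ω n} ∩ {ω | Nat.count (p ω) n = i} := by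
    ext ω
    simp only [mem_setOf_eq, mem_inter_iff]
    constructor
    · intro h
      have h1 : p ω (Nat.nth (p ω) i) := Nat.nth_mem_of_infinite (hinf ω) i
      have h2 : Nat.count (p ω) (Nat.nth (p ω) i) = i := Nat.count_nth_of_infinite (hinf ω) i
      rw [h] at h1 h2
      exact ⟨h1, h2⟩
    · rintro ⟨h1, h2⟩
      rw [← h2]
      exact Nat.nth_count h1
  rw [this]
  exact (hp n).inter (measurableSet_count hp n i)

theorem measurable_reenum {Ω : Type} [MeasurableSpace Ω] {D : Ω → Z → Z → ℝ}
    (hD : ∀ x y, Measurable fun ω => D ω x y) (hinf : ∀ ω, {n | Kept (D ω) n}.Infinite)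
    (i j : ℕ) : Measurable fun ω => reenum (D ω) i j := by
  intro B hB
  have : (fun ω => reenum (D ω) i j) ⁻¹' B = ⋃ m : ℕ, ⋃ n : ℕ,
      ({ω | Nat.nth (Kept (D ω)) i = m} ∩ {ω | Nat.nth (Kept (D ω)) j = n} ∩
        (fun ω => D ω (enumZ m) (enumZ n)) ⁻¹' B) := by
    ext ω
    simp only [mem_preimage, mem_iUnion, mem_inter_iff, mem_setOf_eq, reenum]
    constructor
    · intro h
      exact ⟨_, _, ⟨rfl, rfl⟩, h⟩
    · rintro ⟨m, n, ⟨h1, h2⟩, h3⟩
      rw [h1, h2]
      exact h3
  rw [this]
  refine MeasurableSet.iUnion fun m => MeasurableSet.iUnion fun n => ?_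
  refine MeasurableSet.inter (MeasurableSet.inter ?_ ?_) (hD _ _ hB)
  · exact measurableSet_nth (p := fun ω => Kept (D ω)) (measurableSet_kept hD) hinf i m
  · exact measurableSet_nth (p := fun ω => Kept (D ω)) (measurableSet_kept hD) hinf j n

end Pool.Agent.H82.GH
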