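import Pool.Agent.H82.GH.Defs

/-!
# GH-REENUM: the metric `reenum D` codes the quotient of the pseudometric space `(Z, D)`

* `kept_infinite`: for each marker `k`, `enumZ.symm (inl k)` is kept, since all distances of
  `inl k` to other points are positive (`wt ≥ 10`, `pr ≥ 0`); infinitely many markers.
* `isMet_reenum`: `i < j` gives `nth i < nth j` (`Nat.nth_strictMono`), the later is kept
  (`Nat.nth_mem_of_infinite`), so the distance is not `0`; use symmetry for `j < i`.
* `glue_reenum_iff`: every `z : Z` has a kept representative: the least `m` with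
  `D (enumZ m) z = 0` is kept (if `m' < m` had `D (enumZ m') (enumZ m) = 0` then
  `D (enumZ m') z ≤ 0`; nonnegativity follows from `IsPMet`), and `m = nth i` for some `i`
  (`Nat.exists_lt_card_nth_eq` / `Nat.range_nth_of_infinite`).  Let `r z = i`.
  Given `θ` on `Z`: restrict to kept points; density: replace `y` by its representative
  (`θ x y' ≤ θ x y + D' y y'`).  Given `θ` on `ℕ`: put `θ' x y = θ (r x) (r y)`, using
  `reenum D (r x) (r x') = D x x'` (two triangle inequalities) and `r (enumZ (nth i)) = i` is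
  not needed: density: `x : Z`, take `j` with `θ (r x) j < η` and `y = enumZ (nth j)`; then
  `reenum D' (r y) j = 0`, so `θ (r x) (r y) ≤ θ (r x) j + 0`.
-/

namespace Pool.Agent.H82.GH

open Set

theorem reenum_clamp_nonneg (t : ℝ) : 0 ≤ clamp t := le_max_left _ _

theorem reenum_pr_nonneg (f : ℕ → ℕ → ℝ) (k : Mk) (a : List ℕ) : 0 ≤ pr f k a := by
  unfold pr
  split_ifs
  · have := reenum_clamp_nonneg (f (a.getD k.2.1 0) (a.getD k.2.2.1 0) - (k.2.2.2 : ℝ))
    linarith
  · norm_num
  · exact le_refl _

theorem reenum_wt_pos (k : Mk) : 0 < wt k := by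
  unfold wt
  positivity

theorem kept_infinite (ρ : List (ℕ × ℕ) → ℝ) (f : ℕ → ℕ → ℝ) :
    {n | Kept (DD ρ f f) n}.Infinite := by
  have hinj : Function.Injective fun k : Mk => enumZ.symm (Sum.inl k) := by
    intro k l h
    exact Sum.inl_injective (enumZ.symm.injective h)
  refine Set.infinite_of_injective_forall_mem hinj fun k => ?_
  show Kept (DD ρ f f) (enumZ.symm (Sum.inl k))
  intro m hm
  rw [Equiv.apply_symm_apply]
  have hne : enumZ m ≠ Sum.inl k := by
    intro h
    rw [← h, Equiv.symm_apply_apply] at hm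
    exact lt_irrefl _ hm
  rcases hz : enumZ m with l | a
  · have hlk : l ≠ k := fun h => hne (by rw [hz, h])
    show (if l = k then 0 else wt l + wt k) ≠ 0
    rw [if_neg hlk]
    have h1 := reenum_wt_pos l
    have h2 := reenum_wt_pos k
    exact (by linarith : (0 : ℝ) < wt l + wt k).ne'
  · show wt k + pr f k a ≠ 0
    have h1 := reenum_wt_pos k
    have h2 := reenum_pr_nonneg f k a
    exact (by linarith : (0 : ℝ) < wt k + pr f k a).ne'

theorem isMet_reenum {D : Z → Z → ℝ} (hD : IsPMet D) (hinf : {n | Kept D n}.Infinite) :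
    IsMet (reenum D) := by
  have key : ∀ i j, i < j → reenum D i j ≠ 0 := by
    intro i j hij
    have h1 : Nat.nth (Kept D) i < Nat.nth (Kept D) j := Nat.nth_strictMono hinf hij
    have h2 : Kept D (Nat.nth (Kept D) j) := Nat.nth_mem_of_infinite hinf j
    exact h2 _ h1
  refine ⟨fun x y => ⟨fun h => ?_, fun h => ?_⟩, fun x y => hD.symm _ _, fun x y z => hD.tri _ _ _⟩
  · rcases lt_trichotomy x y with hxy | hxy | hxy
    · exact absurd h (key _ _ hxy)
    · exact hxy
    · refine absurd ?_ (key _ _ hxy)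
      rw [← h]
      exact hD.symm _ _
  · rw [h]
    exact hD.self _

theorem reenum_nonneg {X : Type} {D : X → X → ℝ} (hD : IsPMet D) (x y : X) : 0 ≤ D x y := by
  have h1 := hD.tri x y x
  rw [hD.self, hD.symm y x] at h1
  linarith

/-- every point has a kept representative -/
theorem reenum_exists_rep {D : Z → Z → ℝ} (hD : IsPMet D) (hinf : {n | Kept D n}.Infinite) (z : Z) :
    ∃ i, D (enumZ (Nat.nth (Kept D) i)) z = 0 := by
  classical
  have hex : ∃ m, D (enumZ m) z = 0 := ⟨enumZ.symm z, by rw [Equiv.apply_symm_apply, hD.self]⟩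
  have hm := Nat.find_spec hex
  have hk : Kept D (Nat.find hex) := by
    intro m' hm' h0
    refine Nat.find_min hex hm' (le_antisymm ?_ (reenum_nonneg hD _ _))
    have := hD.tri (enumZ m') (enumZ (Nat.find hex)) z
    rw [h0, hm] at this
    linarith
  have hr : Nat.find hex ∈ Set.range (Nat.nth (Kept D)) := by
    rw [Nat.range_nth_of_infinite hinf]
    exact hk
  obtain ⟨i, hi⟩ := hr
  exact ⟨i, by rw [hi]; exact hm⟩

theorem reenum_dist_eq {D : Z → Z → ℝ} (hD : IsPMet D) {a b x y : Z} (ha : D a x = 0)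
    (hb : D b y = 0) : D a b = D x y := by
  have ha' : D x a = 0 := by rw [hD.symm, ha]
  have hb' : D y b = 0 := by rw [hD.symm, hb]
  apply le_antisymm
  · have h1 := hD.tri a x b
    have h2 := hD.tri x y b
    linarith
  · have h1 := hD.tri x a y
    have h2 := hD.tri a b y
    linarith

theorem glue_reenum_iff {D D' : Z → Z → ℝ} (hD : IsPMet D) (hD' : IsPMet D')
    (hinf : {n | Kept D n}.Infinite) (hinf' : {n | Kept D' n}.Infinite) :
    (∃ θ : ℕ → ℕ → ℝ, Glue (reenum D) (reenum D') θ) ↔ ∃ θ : Z → Z → ℝ, Glue D D' θ := by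
  choose r hr using reenum_exists_rep hD hinf
  choose r' hr' using reenum_exists_rep hD' hinf'
  have hDr : ∀ x y, reenum D (r x) (r y) = D x y := fun x y => reenum_dist_eq hD (hr x) (hr y)
  have hDr' : ∀ x y, reenum D' (r' x) (r' y) = D' x y := fun x y =>
    reenum_dist_eq hD' (hr' x) (hr' y)
  constructor
  · rintro ⟨θ, hθ⟩
    refine ⟨fun x y => θ (r x) (r' y), ?_, ?_, ?_, ?_, ?_, ?_⟩
    · intro x x' y
      have := hθ.left (r x) (r x') (r' y)
      rw [hDr] at this
      exact this
    · intro x y y'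
      have := hθ.right (r x) (r' y) (r' y')
      rw [hDr'] at this
      exact this
    · intro x x' y
      have := hθ.left' (r x) (r x') (r' y)
      rw [hDr] at this
      exact this
    · intro x y y'
      have := hθ.right' (r x) (r' y) (r' y')
      rw [hDr'] at this
      exact this
    · intro x η hη
      obtain ⟨j, hj⟩ := hθ.dense (r x) η hη
      refine ⟨enumZ (Nat.nth (Kept D') j), ?_⟩
      have h1 := hθ.right (r x) (r' (enumZ (Nat.nth (Kept D') j))) j
      have h2 : reenum D' j (r' (enumZ (Nat.nth (Kept D') j))) = 0 := by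
        show D' _ _ = 0
        rw [hD'.symm]
        exact hr' _
      rw [h2] at h1
      show θ (r x) (r' (enumZ (Nat.nth (Kept D') j))) < η
      linarith
    · intro y η hη
      obtain ⟨i, hi⟩ := hθ.dense' (r' y) η hη
      refine ⟨enumZ (Nat.nth (Kept D) i), ?_⟩
      have h1 := hθ.left (r (enumZ (Nat.nth (Kept D) i))) i (r' y)
      have h2 : reenum D (r (enumZ (Nat.nth (Kept D) i))) i = 0 := hr _
      rw [h2] at h1
      show θ (r (enumZ (Nat.nth (Kept D) i))) (r' y) < η
      linarith
  · rintro ⟨θ, hθ⟩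
    refine ⟨fun i j => θ (enumZ (Nat.nth (Kept D) i)) (enumZ (Nat.nth (Kept D') j)),
      fun x x' y => hθ.left _ _ _, fun x y y' => hθ.right _ _ _, fun x x' y => hθ.left' _ _ _,
      fun x y y' => hθ.right' _ _ _, ?_, ?_⟩
    · intro x η hη
      obtain ⟨y, hy⟩ := hθ.dense (enumZ (Nat.nth (Kept D) x)) η hη
      refine ⟨r' y, ?_⟩
      have h1 := hθ.right (enumZ (Nat.nth (Kept D) x)) (enumZ (Nat.nth (Kept D') (r' y))) y
      have h2 : D' y (enumZ (Nat.nth (Kept D') (r' y))) = 0 := by
        rw [hD'.symm]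
        exact hr' y
      rw [h2] at h1
      linarith
    · intro y η hη
      obtain ⟨x, hx⟩ := hθ.dense' (enumZ (Nat.nth (Kept D') y)) η hη
      refine ⟨r x, ?_⟩
      have h1 := hθ.left (enumZ (Nat.nth (Kept D) (r x))) x (enumZ (Nat.nth (Kept D') y))
      rw [hr x] at h1
      linarith

end Pool.Agent.H82.GH
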