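import Pool.Agent.H82.GH.Dist
import Pool.Agent.H82.GH.Bf

/-!
# GH-RIGID: a gluing of the coding spaces gives correspondences of arbitrarily small distortion

Write `m_k = inl k` for the markers, `D = DD (rho f f) f f`, `D' = DD (rho g g) g g`.
`Glue.swap`: the transposed `θ` glues `(D', D)` (use `IsPMet.symm` for `D`, `D'`).

(1) `marker_of_near`: if `θ (inl k) y < 1/4` then `y` is a marker.  Suppose `y = inr b` and let
`b' = b ++ [0]`.  Then `D' (inr b) (inr b') = 2` (the `rho` part is `0` by `rho_self` since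
`zip b (b ++ [0])` has only diagonal pairs).  Take `x'` with `θ x' (inr b') < 1/4`.
`D (inl k) x' ≤ θ (inl k) y + θ x' y < 1/4 + 1/4 + 2` and
`D (inl k) x' ≥ D' y b' - 1/4 - 1/4 > 0` (from `right'` and `left`), but `D (inl k) x'` is `0` or
at least `10`.
(2) `theta_marker`: `θ (inl k) (inl k) ≤ 0`.  Let `0 < η < 1/4`, take `y` with `θ (inl k) y < η`;
`y = inl l` by (1).  Take `x = inr []` and `y'` with `θ x y' < η`; `y'` is a tuple by (1) for the
swapped gluing.  `D (inl k) x ∈ [wt k, wt k + 1]`, `D' (inl l) y' ∈ [wt l, wt l + 1]` and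
they differ by at most `2 η < 1/2`; if `k ≠ l` this contradicts `abs_wt_sub_wt`.  So `l = k` and
`θ (inl k) (inl k) < η` for all small `η`.
(3) hence for tuples `|pr f k a - pr g k b| ≤ θ (inr a) (inr b)`
(`D (inl k) (inr a) ≤ θ (inl k) (inl k) + θ (inr a) (inl k) ≤ θ(inr a)(inr b) + D' (inr b) (inl k)`
 and symmetrically).
(4) if `θ (inr a) (inr b) < 1/2` then `|a| = |b|`: marker `(|a|, 0, 0, 0)`: `pr f ≥ 1/2`, `pr g = 0`
otherwise.
(5) if moreover `(x, y), (x', y') ∈ zip a b` (indices `i, j < n = |a| = |b|`) then by (3) for the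
markers `(n, i, j, l)`, all `l : ℕ`, `|clamp (F - l) - clamp (G - l)| ≤ 2 θ` for `F = f x x' ≥ 0`,
`G = g y y' ≥ 0`; with `2 θ < 1` this gives `|F - G| ≤ 4 θ` (`clamp_lemma`, take `l = ⌊F⌋₊` and
`l + 1` if `F ≤ G`).
(6) step: `a`, `b` with `θ (inr a) (inr b) < ε ≤ 1/4` and `x`: there is `y` with
`θ (inr (a ++ [x])) (inr (b ++ [y])) < ε`.  Let `δ = (θ a b + ε)/2`, `η = (ε - δ)/2 > 0`.
Take `z` with `θ (a ++ [x]) z < η`; by (1) (swapped) `z = inr c`, by (4) `|c| = |a| + 1`.
`D' (inr c) (inr b) ≤ θ (a++[x]) c + θ (a++[x]) b ≤ η + D (a++[x]) a + θ a b < η + 2 + δ` with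
`D (a++[x]) a = 2` (diagonal).  Since `|c| ≠ |b|`, `rho g g (zip c b) < η + δ < 1`, so there is a
correspondence `R'` of distortion `ε' < η + δ` containing `zip c b`; take `y` with
`R' (last c) y`.  Then `zip c (b ++ [y]) ⊆ R'`, `D' c (b++[y]) ≤ ε'` and
`θ (a++[x]) (b++[y]) < η + η + δ = ε`.
(7) `S L := ∃ a b, |a| = |b| ∧ θ (inr a) (inr b) < ε/4 ∧ ∀ p ∈ L, p ∈ zip a b` satisfies the
hypotheses of `corr_of_bf` (with `ε ≤ 1` without loss of generality, and the backward extension
from (6) for the swapped gluing), and `S []` with `a = b = []`: take `y` with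
`θ (inr []) y < ε/4`; it is a tuple of length `0`.
-/

namespace Pool.Agent.H82.GH

theorem clamp_lemma {F G η : ℝ} (hF : 0 ≤ F) (hG : 0 ≤ G) (hη : η < 1)
    (h : ∀ l : ℕ, |clamp (F - l) - clamp (G - l)| ≤ η) : |F - G| ≤ 2 * η := by
  wlog hFG : F ≤ G generalizing F G
  · rw [abs_sub_comm]
    exact this hG hF (fun l => by rw [abs_sub_comm]; exact h l) (le_of_not_ge hFG)
  have hη0 : 0 ≤ η := (abs_nonneg _).trans (h 0)
  set l := ⌊F⌋₊ with hl
  have h1 : (l : ℝ) ≤ F := Nat.floor_le hF
  have h2 : F < l + 1 := Nat.lt_floor_add_one F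
  have a1 := h l
  have a2 := h (l + 1)
  push_cast at a2
  have c1 : clamp (F - l) = F - l := by
    unfold clamp
    rw [min_eq_left (by linarith), max_eq_right (by linarith)]
  have c2 : clamp (F - (l + 1)) = 0 := by
    unfold clamp
    rw [max_eq_left]
    exact (min_le_left _ _).trans (by linarith)
  rw [abs_sub_comm, abs_of_nonneg (by linarith)]
  rw [c1] at a1
  rw [c2] at a2
  rcases le_or_gt (G - l) 1 with h3 | h3
  · have c3 : clamp (G - l) = G - l := by
      unfold clamp
      rw [min_eq_left h3, max_eq_right (by linarith)]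
    rw [c3] at a1
    have := (abs_le.1 a1).1
    linarith
  · have c3 : clamp (G - l) = 1 := by
      unfold clamp
      rw [min_eq_right h3.le, max_eq_right zero_le_one]
    have c4 : clamp (G - (l + 1)) = min (G - (l + 1)) 1 := by
      unfold clamp
      rw [max_eq_right]
      exact le_min (by linarith) zero_le_one
    rw [c3] at a1
    rw [c4, zero_sub, abs_neg] at a2
    have h4 : min (G - (l + 1)) 1 ≤ η := (le_abs_self _).trans a2
    have h5 : G - (l + 1) ≤ η := by
      rcases min_le_iff.1 h4 with h | h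
      · exact h
      · linarith
    linarith [(abs_le.1 a1).1]

theorem Glue.swap {X Y : Type} {D : X → X → ℝ} {D' : Y → Y → ℝ} {θ : X → Y → ℝ}
    (hD : IsPMet D) (hD' : IsPMet D') (h : Glue D D' θ) : Glue D' D (fun y x => θ x y) where
  left x x' y := by
    have := h.right y x x'
    rw [hD'.symm x' x] at this
    linarith
  right x y y' := by
    have := h.left y y' x
    rw [hD.symm y y'] at this
    linarith
  left' x x' y := h.right' y x x'
  right' x y y' := h.left' y y' x
  dense := h.dense'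
  dense' := h.dense

theorem rigid_zip_self (a : List ℕ) : ∀ p ∈ List.zip a a, p.1 = p.2 := by
  induction a with
  | nil => simp
  | cons x a ih =>
    intro p hp
    rw [List.zip_cons_cons, List.mem_cons] at hp
    rcases hp with rfl | hp
    · rfl
    · exact ih p hp

theorem rigid_zip_ext (a : List ℕ) (x : ℕ) : List.zip (a ++ [x]) a = List.zip a a := by
  have := List.zip_append (l₁ := a) (r₁ := [x]) (l₂ := a) (r₂ := []) rfl
  simpa using this

theorem rigid_ext (f : ℕ → ℕ → ℝ) (a : List ℕ) (x : ℕ) :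
    DD (rho f f) f f (.inr (a ++ [x])) (.inr a) = 2 := by
  show (if (a ++ [x]).length = a.length then (0 : ℝ) else 2) + rho f f (List.zip (a ++ [x]) a) = 2
  rw [if_neg (by simp), rigid_zip_ext, rho_self f (rigid_zip_self a), add_zero]

theorem rigid_ext' (f : ℕ → ℕ → ℝ) (a : List ℕ) (x : ℕ) :
    DD (rho f f) f f (.inr a) (.inr (a ++ [x])) = 2 := by
  rw [DD_symm]
  exact rigid_ext f a x

section

variable {f g : ℕ → ℕ → ℝ} {θ : Z → Z → ℝ}

theorem rigid_marker (h : Glue (DD (rho f f) f f) (DD (rho g g) g g) θ) {k : Mk} {y : Z}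
    (hy : θ (.inl k) y < 1 / 4) : ∃ l, y = .inl l := by
  rcases y with l | b
  · exact ⟨l, rfl⟩
  exfalso
  obtain ⟨x', hx'⟩ := h.dense' (.inr (b ++ [0])) (1 / 4) (by norm_num)
  have u := h.left' (.inl k) x' (.inr b)
  have v := h.right x' (.inr b) (.inr (b ++ [0]))
  have w := h.right' x' (.inr b) (.inr (b ++ [0]))
  have w2 := h.left x' (.inl k) (.inr b)
  rw [rigid_ext] at v
  rw [rigid_ext'] at w
  rw [DD_symm] at w2
  have hk := ten_le_wt k
  rcases x' with l | a
  · by_cases hkl : k = l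
    · have e : DD (rho f f) f f (.inl k) (.inl l) = 0 := if_pos hkl
      rw [e] at u w2
      linarith
    · have e : DD (rho f f) f f (.inl k) (.inl l) = wt k + wt l := if_neg hkl
      rw [e] at u
      have := ten_le_wt l
      linarith
  · have e : DD (rho f f) f f (.inl k) (.inr a) = wt k + pr f k a := rfl
    rw [e] at u
    have := pr_nonneg f k a
    linarith

theorem rigid_tuple (h : Glue (DD (rho f f) f f) (DD (rho g g) g g) θ) {a : List ℕ} {y : Z}
    (hy : θ (.inr a) y < 1 / 4) : ∃ b, y = .inr b := by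
  rcases y with l | b
  · obtain ⟨k, hk⟩ := rigid_marker (h.swap (isPMet_DD f) (isPMet_DD g)) (k := l) (y := .inr a) hy
    cases hk
  · exact ⟨b, rfl⟩

theorem rigid_theta_marker (h : Glue (DD (rho f f) f f) (DD (rho g g) g g) θ) (k : Mk) :
    θ (.inl k) (.inl k) ≤ 0 := by
  by_contra hc
  push Not at hc
  obtain ⟨y, hy⟩ := h.dense (.inl k) (min (θ (.inl k) (.inl k)) (1 / 4))
    (lt_min hc (by norm_num))
  have hy1 := hy.trans_le (min_le_left _ _)
  have hy2 := hy.trans_le (min_le_right _ _)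
  obtain ⟨l, rfl⟩ := rigid_marker h hy2
  have hkl : k ≠ l := by
    rintro rfl
    exact lt_irrefl _ hy1
  obtain ⟨y', hy'⟩ := h.dense (.inr []) (1 / 4) (by norm_num)
  obtain ⟨b, rfl⟩ := rigid_tuple h hy'
  have u1 := h.left' (.inl k) (.inr []) (.inr b)
  have u2 := h.right (.inl k) (.inr b) (.inl l)
  have u3 := h.right' (.inl k) (.inl l) (.inr b)
  have u4 := h.left (.inl k) (.inr []) (.inr b)
  have e1 : DD (rho f f) f f (.inl k) (.inr []) = wt k + pr f k [] := rfl
  have e2 : DD (rho g g) g g (.inl l) (.inr b) = wt l + pr g l b := rfl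
  rw [e1] at u1 u4
  rw [e2] at u2 u3
  have a1 := pr_nonneg f k []
  have a2 := pr_le_one f k []
  have a3 := pr_nonneg g l b
  have a4 := pr_le_one g l b
  have a5 := abs_wt_sub_wt hkl
  have a6 : |wt k - wt l| ≤ 2 := abs_le.2 ⟨by linarith, by linarith⟩
  linarith

theorem rigid_pr (h : Glue (DD (rho f f) f f) (DD (rho g g) g g) θ) (k : Mk) (a b : List ℕ) :
    |pr f k a - pr g k b| ≤ θ (.inr a) (.inr b) := by
  have hk := rigid_theta_marker h k
  have u1 := h.left' (.inl k) (.inr a) (.inr b)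
  have u2 := h.right (.inl k) (.inr b) (.inl k)
  have u3 := h.right' (.inl k) (.inl k) (.inr b)
  have u4 := h.left (.inl k) (.inr a) (.inr b)
  have e1 : DD (rho f f) f f (.inl k) (.inr a) = wt k + pr f k a := rfl
  have e2 : DD (rho g g) g g (.inl k) (.inr b) = wt k + pr g k b := rfl
  rw [e1] at u1 u4
  rw [e2] at u2 u3
  exact abs_le.2 ⟨by linarith, by linarith⟩

theorem rigid_length (h : Glue (DD (rho f f) f f) (DD (rho g g) g g) θ) {a b : List ℕ}
    (hab : θ (.inr a) (.inr b) < 1 / 2) : a.length = b.length := by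
  by_contra hc
  have h1 := rigid_pr h (a.length, 0, 0, 0) a b
  have h2 : pr g (a.length, 0, 0, 0) b = 0 := if_neg fun e => hc e.symm
  have h3 : 1 / 2 ≤ pr f (a.length, 0, 0, 0) a := by
    have key : ∀ c : ℝ, 0 ≤ c → 1 / 2 ≤ (1 + c) / 2 := fun c hc => by linarith
    unfold pr
    rw [if_pos rfl]
    dsimp only
    split_ifs
    · exact key _ (clamp_nonneg _)
    · exact key _ le_rfl
  rw [h2, sub_zero] at h1
  have := le_abs_self (pr f (a.length, 0, 0, 0) a)
  linarith

theorem rigid_dist (hf : ∀ x y, 0 ≤ f x y) (hg : ∀ x y, 0 ≤ g x y)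
    (h : Glue (DD (rho f f) f f) (DD (rho g g) g g) θ) {a b : List ℕ}
    (hab : θ (.inr a) (.inr b) < 1 / 2) {p q : ℕ × ℕ} (hp : p ∈ List.zip a b)
    (hq : q ∈ List.zip a b) : |f p.1 q.1 - g p.2 q.2| ≤ 4 * θ (.inr a) (.inr b) := by
  have hlen := rigid_length h hab
  obtain ⟨i, hi, rfl⟩ := List.mem_iff_getElem.1 hp
  obtain ⟨j, hj, rfl⟩ := List.mem_iff_getElem.1 hq
  rw [List.length_zip] at hi hj
  have hia : i < a.length := lt_of_lt_of_le hi (min_le_left _ _)
  have hib : i < b.length := lt_of_lt_of_le hi (min_le_right _ _)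
  have hja : j < a.length := lt_of_lt_of_le hj (min_le_left _ _)
  have hjb : j < b.length := lt_of_lt_of_le hj (min_le_right _ _)
  rw [List.getElem_zip, List.getElem_zip]
  show |f a[i] a[j] - g b[i] b[j]| ≤ _
  have key := clamp_lemma (hf a[i] a[j]) (hg b[i] b[j])
    (η := 2 * θ (.inr a) (.inr b)) (by linarith) fun l => by
      have h1 := rigid_pr h (a.length, i, j, l) a b
      unfold pr at h1
      rw [if_pos rfl, if_pos hlen.symm, if_pos ⟨hia, hja⟩, if_pos ⟨hia, hja⟩] at h1
      simp only [List.getD_eq_getElem?_getD, List.getElem?_eq_getElem hia,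
        List.getElem?_eq_getElem hja, List.getElem?_eq_getElem hib,
        List.getElem?_eq_getElem hjb, Option.getD_some] at h1
      have e : (1 + clamp (f a[i] a[j] - (l : ℝ))) / 2 - (1 + clamp (g b[i] b[j] - (l : ℝ))) / 2 =
        (clamp (f a[i] a[j] - (l : ℝ)) - clamp (g b[i] b[j] - (l : ℝ))) / 2 := by ring
      rw [e, abs_div, abs_of_pos (by norm_num : (0 : ℝ) < 2)] at h1
      linarith
  linarith

/-- the forward extension step -/
theorem rigid_step (h : Glue (DD (rho f f) f f) (DD (rho g g) g g) θ) {a b : List ℕ} {ε : ℝ}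
    (hε : ε ≤ 1 / 4) (hab : θ (.inr a) (.inr b) < ε) (x : ℕ) :
    ∃ y, θ (.inr (a ++ [x])) (.inr (b ++ [y])) < ε := by
  set t := θ (.inr a) (.inr b) with ht
  have ht0 : 0 ≤ t := by
    have := h.left' (.inr a) (.inr a) (.inr b)
    rw [DD_self] at this
    linarith
  obtain ⟨z, hz⟩ := h.dense (.inr (a ++ [x])) ((ε - t) / 4) (by linarith)
  obtain ⟨c, rfl⟩ := rigid_tuple h (hz.trans_le (by linarith))
  have hlen : (a ++ [x]).length = c.length := rigid_length h (hz.trans_le (by linarith))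
  have hlen2 : a.length = b.length := rigid_length h (hab.trans_le (by linarith))
  rw [List.length_append, List.length_singleton] at hlen
  have u1 := h.right' (.inr (a ++ [x])) (.inr c) (.inr b)
  have u2 := h.left (.inr (a ++ [x])) (.inr a) (.inr b)
  rw [rigid_ext] at u2
  have e1 : DD (rho g g) g g (.inr c) (.inr b) = 2 + rho g g (List.zip c b) := by
    show (if c.length = b.length then (0 : ℝ) else 2) + _ = _
    rw [if_neg (by omega)]
  rw [e1] at u1
  have hrho : rho g g (List.zip c b) < (ε - t) / 4 + t + (ε - t) / 4 := by linarith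
  obtain ⟨δ, hδ0, hδ, R, hR1, hR2, hR3, hR4⟩ := exists_corr_of_rho_lt hrho (by linarith)
  -- the last entry of `c`
  have hc : c ≠ [] := by
    intro e
    rw [e] at hlen
    simp at hlen
  obtain ⟨c', w, rfl⟩ : ∃ c' w, c = c' ++ [w] :=
    ⟨c.dropLast, c.getLast hc, (List.dropLast_append_getLast hc).symm⟩
  rw [List.length_append, List.length_singleton] at hlen
  obtain ⟨y, hy⟩ := hR1 w
  refine ⟨y, ?_⟩
  have hzip : List.zip (c' ++ [w]) (b ++ [y]) = List.zip c' b ++ [(w, y)] := by
    rw [List.zip_append (by omega)]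
    rfl
  have hzip2 : List.zip (c' ++ [w]) b = List.zip c' b := by
    have := List.zip_append (l₁ := c') (r₁ := [w]) (l₂ := b) (r₂ := []) (by omega)
    simpa using this
  have e2 : DD (rho g g) g g (.inr (c' ++ [w])) (.inr (b ++ [y])) ≤ δ := by
    show (if (c' ++ [w]).length = (b ++ [y]).length then (0 : ℝ) else 2) + _ ≤ _
    rw [if_pos (by simp; omega), zero_add]
    refine rho_le hδ0 ⟨R, hR1, hR2, hR3, fun p hp => ?_⟩
    rw [hzip, List.mem_append] at hp
    rcases hp with hp | hp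
    · exact hR4 p (by rw [hzip2]; exact hp)
    · rw [List.mem_singleton] at hp
      subst hp
      exact hy
  have u3 := h.right (.inr (a ++ [x])) (.inr (b ++ [y])) (.inr (c' ++ [w]))
  linarith

end

theorem corr_of_glue {f g : ℕ → ℕ → ℝ} (hf : ∀ x y, 0 ≤ f x y) (hg : ∀ x y, 0 ≤ g x y)
    {θ : Z → Z → ℝ} (h : Glue (DD (rho f f) f f) (DD (rho g g) g g) θ) :
    ∀ ε > 0, Corr f g ε [] := by
  intro ε hε
  set δ := min (ε / 4) (1 / 4) with hδ
  have hδ0 : 0 < δ := lt_min (by linarith) (by norm_num)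
  have hδ1 : δ ≤ ε / 4 := min_le_left _ _
  have hδ2 : δ ≤ 1 / 4 := min_le_right _ _
  have h' := h.swap (isPMet_DD f) (isPMet_DD g)
  refine corr_of_bf (fun L => ∃ a b : List ℕ, a.length = b.length ∧ θ (.inr a) (.inr b) < δ ∧
    ∀ p ∈ L, p ∈ List.zip a b) ?_ ?_ ?_ (L := []) ?_
  · rintro L ⟨a, b, h1, h2, h3⟩ x
    obtain ⟨y, hy⟩ := rigid_step h hδ2 h2 x
    refine ⟨y, a ++ [x], b ++ [y], by simp [h1], hy, fun p hp => ?_⟩
    rw [List.zip_append h1, List.mem_append]
    rcases List.mem_cons.1 hp with rfl | hp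
    · exact Or.inr (by simp)
    · exact Or.inl (h3 p hp)
  · rintro L ⟨a, b, h1, h2, h3⟩ y
    obtain ⟨x, hx⟩ := rigid_step h' hδ2 (a := b) (b := a) h2 y
    refine ⟨x, a ++ [x], b ++ [y], by simp [h1], hx, fun p hp => ?_⟩
    rw [List.zip_append h1, List.mem_append]
    rcases List.mem_cons.1 hp with rfl | hp
    · exact Or.inr (by simp)
    · exact Or.inl (h3 p hp)
  · rintro L ⟨a, b, h1, h2, h3⟩ p hp q hq
    have := rigid_dist hf hg h (h2.trans_le (by linarith)) (h3 p hp) (h3 q hq)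
    linarith
  · obtain ⟨y, hy⟩ := h.dense (.inr []) δ hδ0
    obtain ⟨b, rfl⟩ := rigid_tuple h (hy.trans_le hδ2)
    have hb : ([] : List ℕ).length = b.length := rigid_length h (hy.trans_le (by linarith))
    exact ⟨[], b, hb, hy, fun p hp => by simp at hp⟩

end Pool.Agent.H82.GH
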